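import Pool.Agent.L7h85.RL.Sys

/-!
# The statements of the abstract part of the root law

`o = dim O`, `E n = h (pw O n) (pw O n)`, `α n = h (pw V n) (pw V n)`, `z n = dim (O n)`.
-/

set_option autoImplicit false

namespace Pool.Agent.L7h85.RL

open Finset

universe u v

/-- The simple types of a system, with the vectors of multiplicities of the objects. -/
structure Rep {Ob : Type u} (𝒮 : Sys Ob) where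
  /-- the simple types -/
  I : Type u
  /-- the multiplicities -/
  v : Ob → I →₀ ℕ
  /-- representatives -/
  s : I → Ob
  v_s : ∀ i, v (s i) = Finsupp.single i 1
  h_eq : ∀ A B, 𝒮.h A B = (v A).sum fun i m => m * v B i
  dim_eq : ∀ A, 𝒮.dim A = (v A).sum fun i m => m * 𝒮.dim (s i)
  dim_pos : ∀ i, 0 < 𝒮.dim (s i)

/-- [REP] Every system has simple types. -/
def S_REP : Prop := ∀ {Ob : Type u} (𝒮 : Sys Ob), Nonempty (Rep 𝒮)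

/-- [SCH] Schur test. -/
def S_SCH : Prop := ∀ {Ob : Type u} (𝒮 : Sys Ob) (A B : Ob),
  𝒮.h (𝒮.ten B A) A ≤ 𝒮.dim B * 𝒮.h A A

/-- [SCF] Schur test for vectors `f = ∑ a i • S i`: `|A ⊗ f| ≤ dim A * |f|`, and
`|A ⊗ f| ≤ (∑ a i * dim (S i)) * |A|` for non-negative `a`. -/
def S_SCF : Prop := ∀ {Ob : Type u} (𝒮 : Sys Ob) (A : Ob) (ι : Type u) [Fintype ι] (a : ι → ℕ)
    (S : ι → Ob),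
  (∑ i, ∑ j, a i * a j * 𝒮.h (𝒮.ten A (S i)) (𝒮.ten A (S j)) ≤
    𝒮.dim A ^ 2 * ∑ i, ∑ j, a i * a j * 𝒮.h (S i) (S j)) ∧
  (∑ i, ∑ j, a i * a j * 𝒮.h (𝒮.ten A (S i)) (𝒮.ten A (S j)) ≤
    (∑ i, a i * 𝒮.dim (S i)) ^ 2 * 𝒮.h A A)

/-- [LOG] Log-convexity along the powers of `O`, for a vector `f = ∑ a i • Y i`. -/
def S_LOG : Prop := ∀ {Ob : Type u} (𝒮 : Sys Ob) (O : Ob) (ι : Type u) [Fintype ι] (a : ι → ℕ)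
    (Y : ι → Ob) (n : ℕ),
  (∑ i, ∑ j, a i * a j * 𝒮.h (𝒮.it O (Y i) (n + 1)) (𝒮.it O (Y j) (n + 1))) ^ 2 ≤
    (∑ i, ∑ j, a i * a j * 𝒮.h (𝒮.it O (Y i) n) (𝒮.it O (Y j) n)) *
    (∑ i, ∑ j, a i * a j * 𝒮.h (𝒮.it O (Y i) (n + 2)) (𝒮.it O (Y j) (n + 2)))

/-- [CLO] A finite non-empty family of simple objects which is closed under `O* ⊗ O ⊗ _` bounds
the energies of the powers of `O` from below. -/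
def S_CLO : Prop := ∀ {Ob : Type u} (𝒮 : Sys Ob) (O : Ob) (ι : Type u) [Fintype ι] [Nonempty ι]
    (S : ι → Ob), (∀ i, 𝒮.h (S i) (S i) = 1) → (∀ i j, i ≠ j → 𝒮.h (S i) (S j) = 0) →
  (∀ i S', 𝒮.h S' S' = 1 → 𝒮.h S' (𝒮.ten (𝒮.dual O) (𝒮.ten O (S i))) ≠ 0 →
    ∃ j, 𝒮.h S' (S j) ≠ 0) →
  ∀ n, 𝒮.dim O ^ (2 * (n + 1)) ≤ (∑ i, 𝒮.dim (S i) ^ 2) * 𝒮.h (𝒮.pw O n) (𝒮.pw O n)

/-- [NASH] Nash inequality for weighted bipartite graphs (pure combinatorics). -/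
def S_NASH : Prop := ∀ (C C' : Type u) [Fintype C] [Fintype C'] (w : C → ℝ) (d : C → ℕ)
    (d' : C' → ℕ) (t : C → C' → ℕ) (o : ℕ),
  (∀ ρ, 0 ≤ w ρ) → (∀ ρ, 0 < d ρ) → (∀ ρ, ∑ σ, t ρ σ * d' σ = o * d ρ) →
  (∀ σ, ∑ ρ, t ρ σ * d ρ ≤ o * d' σ) →
  (∀ F : Finset C, F.Nonempty → ∃ σ, (∃ ρ ∈ F, t ρ σ ≠ 0) ∧
    ((∃ ρ, ρ ∉ F ∧ t ρ σ ≠ 0) ∨ ∑ ρ, t ρ σ * d ρ < o * d' σ)) →
  (∑ ρ, w ρ ^ 2) ^ 3 ≤ 8 * (∑ ρ, w ρ * d ρ) ^ 4 *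
    ((o : ℝ) ^ 2 * ∑ ρ, w ρ ^ 2 - ∑ σ, (∑ ρ, (t ρ σ : ℝ) * w ρ) ^ 2)

/-- [REC] A recursion. -/
def S_REC : Prop := ∀ (ε : ℝ) (E : ℕ → ℝ), 0 < ε → (∀ n, 0 ≤ E n) →
  (∀ n, E (n + 1) ≤ E n - ε * E n ^ 3) → ∃ C : ℝ, 0 < C ∧ ∀ n : ℕ, E n ≤ C / √(n + 1)

/-- [DICH] The energies of the powers of `O` are bounded from below, or decay. -/
def S_DICH : Prop := ∀ {Ob : Type u} (𝒮 : Sys Ob) (O : Ob), 0 < 𝒮.dim O →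
  (∃ R : ℕ, ∀ n, 𝒮.dim O ^ (2 * (n + 1)) ≤ R * 𝒮.h (𝒮.pw O n) (𝒮.pw O n)) ∨
  (∃ C : ℝ, 0 < C ∧ ∀ n : ℕ,
    (𝒮.h (𝒮.pw O n) (𝒮.pw O n) : ℝ) ≤ C * (𝒮.dim O : ℝ) ^ (2 * (n + 1)) / √(n + 1))

/-- [SUM] If the energies are bounded from below then the sum of the squares of the dimensions of
the simple objects in the powers `O^n ⊗ O*^n` is bounded. -/
def S_SUM : Prop := ∀ {Ob : Type u} (𝒮 : Sys Ob) (O : Ob) (R : ℕ), 0 < 𝒮.dim O →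
  (∀ n, 𝒮.dim O ^ (2 * (n + 1)) ≤ R * 𝒮.h (𝒮.pw O n) (𝒮.pw O n)) →
  ∀ (ι : Type u) [Fintype ι] (S : ι → Ob), (∀ i, 𝒮.h (S i) (S i) = 1) →
  (∀ i j, i ≠ j → 𝒮.h (S i) (S j) = 0) → (∀ i, ∃ n, 𝒮.h (S i) (𝒮.wq O n) ≠ 0) →
  ∑ i, 𝒮.dim (S i) ^ 2 ≤ R

/-- [GEN] One of the objects `O κ` generates all simple objects of `T` in the `wq V N`. -/
def S_GEN : Prop := ∀ {Ob : Type u} (𝒮 : Sys Ob) (T : Ob → Prop), 𝒮.IsStable T →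
  ∀ (V : Ob) (O R : ℕ → Ob), 0 < 𝒮.dim V → (∀ n, 𝒮.IsSplit T (𝒮.wq V n) (O n) (R n)) →
  ∀ (Λ : Type) [Fintype Λ] (U : Λ → Ob) (Γ : Type v) [CommGroup Γ] (g : Λ → Γ),
  𝒮.IsGraded T (𝒮.ten V (𝒮.dual V)) U g →
  ∃ κ, ∀ N S, 𝒮.h S S = 1 → T S → 𝒮.h S (𝒮.wq V N) ≠ 0 → ∃ n, 𝒮.h S (𝒮.wq (O κ) n) ≠ 0

/-- [FIN] The finite case. -/
def S_FIN : Prop := ∀ {Ob : Type u} (𝒮 : Sys Ob) (T : Ob → Prop), 𝒮.IsStable T →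
  ∀ (V : Ob) (O R : ℕ → Ob), (∀ n, 𝒮.IsSplit T (𝒮.wq V n) (O n) (R n)) →
  ∀ (P : Ob) (r : ℕ), 0 < 𝒮.dim P →
  (∀ N S, 𝒮.h S S = 1 → T S → 𝒮.h S (𝒮.wq V N) ≠ 0 → ∃ n, 𝒮.h S (𝒮.wq P n) ≠ 0) →
  (∀ n, 𝒮.dim P ^ (2 * (n + 1)) ≤ r * 𝒮.h (𝒮.pw P n) (𝒮.pw P n)) →
  ∀ n, 𝒮.dim (O n) ≤ r * 𝒮.h (𝒮.pw V n) (𝒮.pw V n)

/-- [LOW] The lower bound for `z M` in the infinite case. -/
def S_LOW : Prop := ∀ {Ob : Type u} (𝒮 : Sys Ob) (T : Ob → Prop), 𝒮.IsStable T →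
  ∀ (V : Ob) (O R : ℕ → Ob), (∀ n, 𝒮.IsSplit T (𝒮.wq V n) (O n) (R n)) →
  ∀ (κ M n : ℕ) (β : ℤ),
  β = 𝒮.dim (O κ) ^ 2 * 𝒮.h (𝒮.pw V M) (𝒮.pw V M) -
    (𝒮.dim V ^ (4 * (κ + 1)) * 𝒮.h (𝒮.pw V M) (𝒮.pw V M) -
      𝒮.h (𝒮.pw V (M + (2 * κ + 2))) (𝒮.pw V (M + (2 * κ + 2)))) → 0 ≤ β →
  β ^ (n + 1) ≤ (𝒮.h (𝒮.pw V M) (𝒮.pw V M) : ℤ) ^ n * 𝒮.dim (O M) *
    𝒮.h (𝒮.pw (O κ) n) (𝒮.pw (O κ) n)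

/-- [POS] If one of the objects `O κ` is not zero then no object `O M` is zero. -/
def S_POS : Prop := ∀ {Ob : Type u} (𝒮 : Sys Ob) (T : Ob → Prop), 𝒮.IsStable T →
  ∀ (V : Ob) (O R : ℕ → Ob), 0 < 𝒮.dim V → (∀ n, 𝒮.IsSplit T (𝒮.wq V n) (O n) (R n)) →
  ∀ κ M, 0 < 𝒮.dim (O κ) → 0 < 𝒮.dim (O M)

/-- [NUM] The numerical end of the infinite case (pure analysis). -/
def S_NUM : Prop := ∀ (α z : ℕ → ℕ) (E : ℕ → ℝ) (b o κ e : ℕ) (C : ℝ), 0 < b → 0 < o → 0 < C →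
  (∀ n, 0 < z n) → (∀ n, 0 < α n) → (∀ n, α (n + 1) ^ 2 ≤ α n * α (n + 2)) →
  (∀ n, α n ≤ b ^ (2 * (n + 1))) → (∀ n, b ^ (2 * (n + 1)) ≤ α n * (n + 2) ^ e) →
  (∀ n : ℕ, E n ≤ C * (o : ℝ) ^ (2 * (n + 1)) / √(n + 1)) →
  (∀ (M n : ℕ) (β : ℝ), β = (o : ℝ) ^ 2 * α M -
    ((b : ℝ) ^ (4 * (κ + 1)) * α M - α (M + (2 * κ + 2))) → 0 ≤ β →
    β ^ (n + 1) ≤ (α M : ℝ) ^ n * z M * E n) →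
  ∃ c : ℝ, 0 < c ∧ ∀ M : ℕ, c * √((M + 1) / Real.log (M + 2)) * α M ≤ z M

/-- [ABS] The root law for systems. -/
def S_ABS : Prop := ∀ {Ob : Type u} (𝒮 : Sys Ob) (T : Ob → Prop), 𝒮.IsStable T →
  ∀ (V : Ob) (O R : ℕ → Ob), 0 < 𝒮.dim V → (∀ n, 𝒮.IsSplit T (𝒮.wq V n) (O n) (R n)) →
  ∀ (Λ : Type) [Fintype Λ] (U : Λ → Ob) (Γ : Type v) [CommGroup Γ] (g : Λ → Γ),
  𝒮.IsGraded T (𝒮.ten V (𝒮.dual V)) U g →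
  ∀ e : ℕ, (∀ n, 𝒮.dim V ^ (2 * (n + 1)) ≤ 𝒮.h (𝒮.pw V n) (𝒮.pw V n) * (n + 2) ^ e) →
  (∃ r : ℕ, ∀ n, 𝒮.dim (O n) ≤ r * 𝒮.h (𝒮.pw V n) (𝒮.pw V n)) ∨
  ∃ c : ℝ, 0 < c ∧ ∀ n : ℕ,
    c * √((n + 1) / Real.log (n + 2)) * 𝒮.h (𝒮.pw V n) (𝒮.pw V n) ≤ 𝒮.dim (O n)

end Pool.Agent.L7h85.RL
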