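import Pool.Agent.L7h85.RL.Stm

/-!
# Statements for the root law for the Tate classes themselves: abstract part and linear algebra
-/

set_option autoImplicit false

namespace Pool.Agent.L7h85.RL

open Finset TensorProduct

universe u v w

/-- [LOT] The lower bound with a function `τ` which is at least the length. -/
def S_LOT : Prop := ∀ {Ob : Type u} (𝒮 : Sys Ob) (T : Ob → Prop), 𝒮.IsStable T →
  ∀ (V : Ob) (O R : ℕ → Ob), (∀ n, 𝒮.IsSplit T (𝒮.wq V n) (O n) (R n)) →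
  ∀ (τ : Ob → ℕ), (∀ A, T A → ∃ D : Dec 𝒮.h 𝒮.dim A, ∑ c, D.m c ≤ τ A) →
  ∀ (κ M n : ℕ) (β : ℤ),
  β = 𝒮.dim (O κ) ^ 2 * 𝒮.h (𝒮.pw V M) (𝒮.pw V M) -
    (𝒮.dim V ^ (4 * (κ + 1)) * 𝒮.h (𝒮.pw V M) (𝒮.pw V M) -
      𝒮.h (𝒮.pw V (M + (2 * κ + 2))) (𝒮.pw V (M + (2 * κ + 2)))) → 0 ≤ β →
  β ^ (n + 1) ≤ (𝒮.h (𝒮.pw V M) (𝒮.pw V M) : ℤ) ^ n * τ (O M) * τ (𝒮.wq (O κ) n)

/-- [KTP] Fixed vectors of a tensor product of a unipotent operator and another operator. -/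
def S_KTP : Prop := ∀ (K : Type v) [Field K] (U B : Type w) [AddCommGroup U] [Module K U]
    [Module.Finite K U] [AddCommGroup B] [Module K B] [Module.Finite K B]
    (u : U →ₗ[K] U) (b : B →ₗ[K] B), IsNilpotent (u - 1) →
  Module.finrank K (LinearMap.ker (TensorProduct.map u b - 1)) ≤
    Module.finrank K U * Module.finrank K (LinearMap.ker (b - 1))

/-- [KER] Fixed vectors of the tensor powers of a unipotent operator which is not the identity. -/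
def S_KER : Prop := ∀ (K : Type v) [Field K] [CharZero K] (V : ℕ → Type w)
    [∀ n, AddCommGroup (V n)] [∀ n, Module K (V n)] [∀ n, Module.Finite K (V n)]
    (e : ∀ n, (V 0 ⊗[K] V n) ≃ₗ[K] V (n + 1)) (u : ∀ n, V n →ₗ[K] V n),
  (∀ n, u (n + 1) ∘ₗ (e n).toLinearMap =
    (e n).toLinearMap ∘ₗ TensorProduct.map (u 0) (u n)) →
  IsNilpotent (u 0 - 1) → u 0 ≠ 1 →
  ∃ C : ℝ, 0 < C ∧ ∀ n : ℕ, (Module.finrank K (LinearMap.ker (u n - 1)) : ℝ) ≤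
    C * (Module.finrank K (V 0) : ℝ) ^ (n + 1) / √(n + 1)

/-- [ABT] The root law for the function `τ`. -/
def S_ABT : Prop := ∀ {Ob : Type u} (𝒮 : Sys Ob) (T : Ob → Prop), 𝒮.IsStable T →
  ∀ (V : Ob) (O R : ℕ → Ob), 0 < 𝒮.dim V → (∀ n, 𝒮.IsSplit T (𝒮.wq V n) (O n) (R n)) →
  ∀ (τ : Ob → ℕ), (∀ A, T A → ∃ D : Dec 𝒮.h 𝒮.dim A, ∑ c, D.m c ≤ τ A) →
  ∀ (κ : ℕ) (C : ℝ), 0 < 𝒮.dim (O κ) → 0 < C →
  (∀ n : ℕ, (τ (𝒮.wq (O κ) n) : ℝ) ≤ C * (𝒮.dim (O κ) : ℝ) ^ (2 * (n + 1)) / √(n + 1)) →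
  ∀ e : ℕ, (∀ n, 𝒮.dim V ^ (2 * (n + 1)) ≤ 𝒮.h (𝒮.pw V n) (𝒮.pw V n) * (n + 2) ^ e) →
  ∃ c : ℝ, 0 < c ∧ ∀ n : ℕ,
    c * √((n + 1) / Real.log (n + 2)) * 𝒮.h (𝒮.pw V n) (𝒮.pw V n) ≤ τ (O n)

end Pool.Agent.L7h85.RL
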