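import Pool.Agent.L7h85.RL.Geo
import Pool.Agent.L7h85.RL.Stm3

/-!
# Statements for the root law for the Tate classes themselves: geometric part
-/

set_option linter.unusedVariables false
set_option linter.unusedSectionVars false

open CategoryTheory AlgebraicGeometry CategoryTheory.Limits

universe u v

namespace Pool.Agent.L7h85.RL

open Pool.Agent.H914 Pool.Agent.H447 Pool.Agent.W534 VarClass Obj WeilCohomology Module
open Pool.Agent.Y163

variable {k : Type u} [Field k] {𝒱 : VarClass k} {ops : CycleOps 𝒱}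
  {W : WeilCohomology.{u, v} ops} {p : ℕ}

/-- The space spanned by the Tate classes of degree `2 j`. -/
noncomputable def tsub (Φ : FrobSystem W p) (Z : 𝒱.Obj) (j : ℕ) : Submodule W.K (W.H Z) :=
  Submodule.span W.K {c | IsTate Φ Z j c}

/-- The number of Tate classes in the middle degree in an idempotent correspondence. -/
noncomputable def gtau (Φ : FrobSystem W p) (A : GOb W) : ℕ :=
  finrank W.K (tsub Φ A.Z (A.Z.dim / 2) ⊓ LinearMap.range A.e : Submodule W.K (W.H A.Z))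

/-- The complementary idempotent. -/
noncomputable def gcompl (A : GOb W) : GOb W :=
  ⟨A.Z, 1 - A.e, (KOp W A.Z A.Z 0).sub_mem (KAlg W A.Z).one_mem A.mem, by
    rw [sub_mul, mul_sub, mul_sub, one_mul, mul_one, one_mul, A.idem, sub_self, sub_zero]⟩

/-- [FRC] A power of the Frobenius endomorphism commutes with all correspondences. -/
def S_FRC (Φ : FrobSystem W p) : Prop := ∀ Z : 𝒱.Obj, ∃ s, 0 < s ∧ ∀ m, ∀ f ∈ KOp W Z Z 0,
  frob Φ Z (s * m) * f = f * frob Φ Z (s * m)

/-- [SPC] The splitting of a variety, given a projector onto the generalised Tate classes. -/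
def S_SPC (Φ : FrobSystem W p) (σ : W.K →+* ℂ) : Prop := 1 < p → IsAlgClosed W.K →
  (∀ Z : 𝒱.Obj, RiemannHyp Φ σ Z) → ∀ 𝒮 : Sys (GOb W), IsGeo 𝒮 → ∀ (A : GOb W) (q : ℕ),
    A.Z.dim = 2 * q → LinearMap.range A.e = genU Φ A.Z q →
      𝒮.IsSplit (GT Φ) (gone W A.Z) A (gcompl A)

/-- [TAU] The length is at most the number of Tate classes. -/
def S_TAU (Φ : FrobSystem W p) (σ : W.K →+* ℂ) : Prop := 1 < p → IsAlgClosed W.K →
  (∀ Z : 𝒱.Obj, RiemannHyp Φ σ Z) → ∀ A : GOb W, GT Φ A →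
    ∃ D : Dec gh gdim A, ∑ c, D.m c ≤ gtau Φ A

/-- [TNS] The number of Tate classes in the powers of an object on which the Frobenius endomorphism
is not semisimple. -/
def S_TNS (Φ : FrobSystem W p) (σ : W.K →+* ℂ) : Prop := 1 < p → IsAlgClosed W.K →
  (∀ Z : 𝒱.Obj, RiemannHyp Φ σ Z) → ∀ 𝒮 : Sys (GOb W), IsGeo 𝒮 → ∀ A : GOb W, GT Φ A →
    gtau Φ A < gdim A → ∃ C : ℝ, 0 < C ∧ ∀ n : ℕ,
      (gtau Φ (𝒮.wq A n) : ℝ) ≤ C * (gdim A : ℝ) ^ (2 * (n + 1)) / √(n + 1)

end Pool.Agent.L7h85.RL
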