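import Pool.Agent.L7h85.RL.Geo2

/-!
# Statements for the growth law for non-semisimple Frobenius endomorphisms
-/

set_option linter.unusedVariables false
set_option linter.unusedSectionVars false

open CategoryTheory AlgebraicGeometry CategoryTheory.Limits

universe u v w

namespace Pool.Agent.L7h85.RL

open Finset TensorProduct

/-- [NUG] The numerical end with an exponent `γ` (pure analysis; `S_NUM` is the case `γ = 1/2`). -/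
def S_NUG : Prop := ∀ (α z : ℕ → ℕ) (E : ℕ → ℝ) (b o κ e : ℕ) (C γ : ℝ), 0 < b → 0 < o → 0 < C →
  0 ≤ γ → (∀ n, 0 < z n) → (∀ n, 0 < α n) → (∀ n, α (n + 1) ^ 2 ≤ α n * α (n + 2)) →
  (∀ n, α n ≤ b ^ (2 * (n + 1))) → (∀ n, b ^ (2 * (n + 1)) ≤ α n * (n + 2) ^ e) →
  (∀ n : ℕ, E n ≤ C * (o : ℝ) ^ (2 * (n + 1)) / ((n : ℝ) + 1) ^ γ) →
  (∀ (M n : ℕ) (β : ℝ), β = (o : ℝ) ^ 2 * α M -
    ((b : ℝ) ^ (4 * (κ + 1)) * α M - α (M + (2 * κ + 2))) → 0 ≤ β →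
    β ^ (n + 1) ≤ (α M : ℝ) ^ n * z M * E n) →
  ∃ c : ℝ, 0 < c ∧ ∀ M : ℕ, c * (((M : ℝ) + 1) / Real.log (M + 2)) ^ γ * α M ≤ z M

/-- [LOS] The lower bound with a function `τ` which is at least the length, and a bound `H` for the
multiplicities in `wq (O κ) n`. -/
def S_LOS : Prop := ∀ {Ob : Type u} (𝒮 : Sys Ob) (T : Ob → Prop), 𝒮.IsStable T →
  ∀ (V : Ob) (O R : ℕ → Ob), (∀ n, 𝒮.IsSplit T (𝒮.wq V n) (O n) (R n)) →
  ∀ (τ : Ob → ℕ), (∀ A, T A → ∃ D : Dec 𝒮.h 𝒮.dim A, ∑ c, D.m c ≤ τ A) →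
  ∀ (κ M n : ℕ) (β : ℤ) (H : ℕ), (∀ S, 𝒮.h S S = 1 → 𝒮.h S (𝒮.wq (O κ) n) ≤ H) →
  β = 𝒮.dim (O κ) ^ 2 * 𝒮.h (𝒮.pw V M) (𝒮.pw V M) -
    (𝒮.dim V ^ (4 * (κ + 1)) * 𝒮.h (𝒮.pw V M) (𝒮.pw V M) -
      𝒮.h (𝒮.pw V (M + (2 * κ + 2))) (𝒮.pw V (M + (2 * κ + 2)))) → 0 ≤ β →
  β ^ (n + 1) ≤ (𝒮.h (𝒮.pw V M) (𝒮.pw V M) : ℤ) ^ n * τ (O M) * H

/-- The number of Jordan blocks of size `j` of the nilpotent operator `N` (for `1 ≤ j`). -/
noncomputable def nblk {K V : Type*} [Field K] [AddCommGroup V] [Module K V] (N : V →ₗ[K] V)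
    (j : ℕ) : ℤ :=
  (Module.finrank K (LinearMap.range (N ^ (j - 1))) : ℤ) +
    Module.finrank K (LinearMap.range (N ^ (j + 1))) -
      2 * Module.finrank K (LinearMap.range (N ^ j))

/-- [BLK] The numbers of Jordan blocks of each size of the tensor powers of a unipotent operator
which is not the identity. -/
def S_BLK : Prop := ∀ (K : Type v) [Field K] [CharZero K] (V : ℕ → Type w)
    [∀ n, AddCommGroup (V n)] [∀ n, Module K (V n)] [∀ n, Module.Finite K (V n)]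
    (e : ∀ n, (V 0 ⊗[K] V n) ≃ₗ[K] V (n + 1)) (u : ∀ n, V n →ₗ[K] V n),
  (∀ n, u (n + 1) ∘ₗ (e n).toLinearMap =
    (e n).toLinearMap ∘ₗ TensorProduct.map (u 0) (u n)) →
  IsNilpotent (u 0 - 1) → u 0 ≠ 1 →
  ∃ C : ℝ, 0 < C ∧ ∀ n j : ℕ, 1 ≤ j → (nblk (u n - 1) j : ℝ) ≤
    C * (Module.finrank K (V 0) : ℝ) ^ (n + 1) / (n + 1)

/-- [BLT] The numbers of Jordan blocks in a tensor product of unipotent operators. -/
def S_BLT : Prop := ∀ (K : Type v) [Field K] [CharZero K] (U B : Type w) [AddCommGroup U]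
    [Module K U] [Module.Finite K U] [AddCommGroup B] [Module K B] [Module.Finite K B]
    (u : U →ₗ[K] U) (b : B →ₗ[K] B), IsNilpotent (u - 1) → IsNilpotent (b - 1) → ∀ H : ℤ,
  (∀ j, 1 ≤ j → nblk (b - 1) j ≤ H) →
  ∀ j, 1 ≤ j → nblk (TensorProduct.map u b - 1) j ≤ Module.finrank K U * H

open Pool.Agent.H914 Pool.Agent.H447 Pool.Agent.W534 VarClass Obj WeilCohomology Module
open Pool.Agent.Y163

variable {k : Type u} [Field k] {𝒱 : VarClass k} {ops : CycleOps 𝒱}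
  {W : WeilCohomology.{u, v} ops} {p : ℕ}

/-- [NSE] The energies of the powers of an object on which the Frobenius endomorphism is not
semisimple. -/
def S_NSE (Φ : FrobSystem W p) (σ : W.K →+* ℂ) : Prop := 1 < p → IsAlgClosed W.K →
  (∀ Z : 𝒱.Obj, RiemannHyp Φ σ Z) → ∀ 𝒮 : Sys (GOb W), IsGeo 𝒮 → ∀ A : GOb W, GT Φ A →
    gtau Φ A < gdim A → ∃ C : ℝ, 0 < C ∧ ∀ n : ℕ, (𝒮.h (𝒮.pw A n) (𝒮.pw A n) : ℝ) ≤
      C * (gdim A : ℝ) ^ (2 * (n + 1)) / ((n : ℝ) + 1) ^ (3 / 2 : ℝ)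

/-- [NSM] The multiplicities in the powers of an object on which the Frobenius endomorphism is not
semisimple. -/
def S_NSM (Φ : FrobSystem W p) (σ : W.K →+* ℂ) : Prop := 1 < p → IsAlgClosed W.K →
  (∀ Z : 𝒱.Obj, RiemannHyp Φ σ Z) → ∀ 𝒮 : Sys (GOb W), IsGeo 𝒮 → ∀ A : GOb W, GT Φ A →
    gtau Φ A < gdim A → ∃ C : ℝ, 0 < C ∧ ∀ (n : ℕ) (S : GOb W), 𝒮.h S S = 1 →
      (𝒮.h S (𝒮.wq A n) : ℝ) ≤ C * (gdim A : ℝ) ^ (2 * (n + 1)) / ((n : ℝ) + 1)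

/-- [NSX] If the Frobenius endomorphism is not semisimple on `H(X)`, then there are generalised
Tate classes on `X × X` which are not Tate classes. -/
def S_NSX (Φ : FrobSystem W p) (σ : W.K →+* ℂ) : Prop := 1 < p → IsAlgClosed W.K →
  (∀ Z : 𝒱.Obj, RiemannHyp Φ σ Z) → ∀ X : 𝒱.Obj,
    ¬ Module.End.IsSemisimple (M := W.H X) (W.map (Φ.Fr X)).toLinearMap →
      tsub Φ (X.prod X) X.dim < genU Φ (X.prod X) X.dim

end Pool.Agent.L7h85.RL
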