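import Pool.Agent.L7h26.RL.Rep
import Pool.Agent.L7h26.RL.Log
import Pool.Agent.L7h26.RL.Sum
import Pool.Agent.L7h73.RL.Sch
import Pool.Agent.L7h73.RL.Clo
import Pool.Agent.L7h73.RL.Dich
import Pool.Agent.L7h89.RL.Nash
import Pool.Agent.L7h89.RL.Rec
import Pool.Agent.L7h97.RL.Num
import Pool.Agent.L7h32.RL.Low

/-!
# The root law for systems
-/

set_option autoImplicit false

namespace Pool.Agent.L7h85.RL

open Finset

universe u v

lemma it_self {Ob : Type u} (𝒮 : Sys Ob) (V : Ob) (n : ℕ) : 𝒮.it V V n = 𝒮.pw V n := by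
  induction n with
  | zero => rfl
  | succ n ih => rw [Sys.it, ih]; rfl

lemma h_self_le {Ob : Type u} (𝒮 : Sys Ob) (A : Ob) : 𝒮.h A A ≤ 𝒮.dim A ^ 2 := by
  obtain ⟨D⟩ := 𝒮.dec A
  have h1 : ∀ c, 𝒮.h (D.S c) A = D.m c := by
    intro c
    rw [𝒮.h_symm, D.par, Finset.sum_eq_single c]
    · rw [D.ortho, if_pos rfl, mul_one]
    · intro b _ hb
      rw [D.ortho, if_neg hb, mul_zero]
    · intro h; exact absurd (Finset.mem_univ _) h
  rw [D.par A, D.dim_eq, sq, Finset.sum_mul]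
  refine Finset.sum_le_sum fun c _ => ?_
  rw [h1]
  have h2 : D.m c ≤ ∑ c, D.m c * 𝒮.dim (D.S c) := by
    refine le_trans ?_ (Finset.single_le_sum (f := fun c => D.m c * 𝒮.dim (D.S c))
      (fun _ _ => Nat.zero_le _) (Finset.mem_univ c))
    exact Nat.le_mul_of_pos_right _ (D.dim_pos c)
  calc D.m c * D.m c ≤ D.m c * 𝒮.dim (D.S c) * D.m c :=
        Nat.mul_le_mul_right _ (Nat.le_mul_of_pos_right _ (D.dim_pos c))
    _ ≤ _ := Nat.mul_le_mul_left _ h2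

theorem s_ABS (hGEN : S_GEN.{u, v}) : S_ABS.{u, v} := by
  intro Ob 𝒮 T hT V O R hV hs Λ _ U Γ _ g hg e hgr
  have hREP : S_REP.{u} := L7h26.RL.s_REP
  have hSCH : S_SCH.{u} := L7h73.RL.s_SCH hREP
  have hSCF : S_SCF.{u} := L7h73.RL.s_SCF hREP
  have hLOG : S_LOG.{u} := L7h26.RL.s_LOG
  have hCLO : S_CLO.{u} := L7h73.RL.s_CLO hREP hSCF hLOG
  have hDICH : S_DICH.{u} := L7h73.RL.s_DICH hREP hCLO L7h89.RL.s_NASH L7h89.RL.s_REC
  have hSUM : S_SUM.{u} := L7h26.RL.s_SUM hSCH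
  have hPOS : S_POS.{u} := L7h32.RL.s_POS
  have hLOW : S_LOW.{u} := L7h32.RL.s_LOW hLOG hSCH
  have hFIN : S_FIN.{u} := L7h32.RL.s_FIN hSCH hSUM
  obtain ⟨κ, hκ⟩ := hGEN 𝒮 T hT V O R hV hs Λ U Γ g hg
  rcases Nat.eq_zero_or_pos (𝒮.dim (O κ)) with h0 | hpos
  · left
    refine ⟨0, fun n => ?_⟩
    rcases Nat.eq_zero_or_pos (𝒮.dim (O n)) with h1 | h1
    · rw [h1]; exact Nat.zero_le _
    · have := hPOS 𝒮 T hT V O R hV hs n κ h1
      omega
  · rcases hDICH 𝒮 (O κ) hpos with ⟨r, hr⟩ | ⟨C, hC, hE⟩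
    · left
      exact ⟨r, hFIN 𝒮 T hT V O R hs (O κ) r hpos hκ hr⟩
    · right
      have hz : ∀ n, 0 < 𝒮.dim (O n) := fun n => hPOS 𝒮 T hT V O R hV hs κ n hpos
      have hα : ∀ n, 0 < 𝒮.h (𝒮.pw V n) (𝒮.pw V n) := by
        intro n
        apply Nat.pos_of_ne_zero
        intro h0
        have h1 := hgr n
        rw [h0, zero_mul] at h1
        have h2 : 0 < 𝒮.dim V ^ (2 * (n + 1)) := pow_pos hV _
        omega
      have hlc : ∀ n, 𝒮.h (𝒮.pw V (n + 1)) (𝒮.pw V (n + 1)) ^ 2 ≤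
          𝒮.h (𝒮.pw V n) (𝒮.pw V n) * 𝒮.h (𝒮.pw V (n + 2)) (𝒮.pw V (n + 2)) := by
        intro n
        have h1 := hLOG 𝒮 V PUnit (fun _ => 1) (fun _ => V) n
        simp only [Finset.univ_unique, Finset.sum_singleton, one_mul, it_self] at h1
        exact h1
      have hup : ∀ n, 𝒮.h (𝒮.pw V n) (𝒮.pw V n) ≤ 𝒮.dim V ^ (2 * (n + 1)) := by
        intro n
        induction n with
        | zero => exact h_self_le 𝒮 V
        | succ n ih =>
          have h1 := (hSCF 𝒮 V PUnit (fun _ => 1) (fun _ => 𝒮.pw V n)).1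
          simp only [Finset.univ_unique, Finset.sum_singleton, one_mul] at h1
          calc 𝒮.h (𝒮.pw V (n + 1)) (𝒮.pw V (n + 1)) ≤
              𝒮.dim V ^ 2 * 𝒮.h (𝒮.pw V n) (𝒮.pw V n) := h1
            _ ≤ 𝒮.dim V ^ 2 * 𝒮.dim V ^ (2 * (n + 1)) := Nat.mul_le_mul_left _ ih
            _ = 𝒮.dim V ^ (2 * (n + 1 + 1)) := by rw [← pow_add]; congr 1; ring
      obtain ⟨c, hc, hfin⟩ := L7h97.RL.s_NUM (fun n => 𝒮.h (𝒮.pw V n) (𝒮.pw V n))
        (fun n => 𝒮.dim (O n)) (fun n => (𝒮.h (𝒮.pw (O κ) n) (𝒮.pw (O κ) n) : ℝ))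
        (𝒮.dim V) (𝒮.dim (O κ)) κ e C hV hpos hC hz hα hlc hup hgr hE (by
          intro M n β hβ hβ0
          set β' : ℤ := 𝒮.dim (O κ) ^ 2 * 𝒮.h (𝒮.pw V M) (𝒮.pw V M) -
            (𝒮.dim V ^ (4 * (κ + 1)) * 𝒮.h (𝒮.pw V M) (𝒮.pw V M) -
              𝒮.h (𝒮.pw V (M + (2 * κ + 2))) (𝒮.pw V (M + (2 * κ + 2)))) with hβ'
          have h1 : β = (β' : ℝ) := by
            rw [hβ, hβ']
            push_cast
            rfl
          have h2 : 0 ≤ β' := by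
            rw [h1] at hβ0
            exact_mod_cast hβ0
          have h3 := hLOW 𝒮 T hT V O R hs κ M n β' hβ' h2
          rw [h1]
          exact_mod_cast h3)
      refine ⟨c, hc, fun n => ?_⟩
      have h4 := hfin n
      exact h4

end Pool.Agent.L7h85.RL
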