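import Pool.Agent.L7h85.RL.Geo

/-!
# Twisted isomorphisms
-/

set_option linter.unusedVariables false
set_option linter.unusedSectionVars false

open CategoryTheory AlgebraicGeometry CategoryTheory.Limits

universe u v

namespace Pool.Agent.L7h85.RL

open Pool.Agent.H914 Pool.Agent.H447 Pool.Agent.W534 VarClass Obj WeilCohomology Module
open Pool.Agent.Y163

variable {k : Type u} [Field k] {𝒱 : VarClass k} {ops : CycleOps 𝒱}
  {W : WeilCohomology.{u, v} ops} {X Y Z U S X' Y' : 𝒱.Obj}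

/-- The operators `f` and `g` correspond to each other under an isomorphism of varieties. -/
def Tw (f : Module.End W.K (W.H X)) (g : Module.End W.K (W.H Y)) : Prop :=
  X.dim = Y.dim ∧ ∃ (θ : X ⟶ Y) (η : Y ⟶ X), θ ≫ η = 𝟙 X ∧ η ≫ θ = 𝟙 Y ∧
    ∀ a, W.map θ (g a) = f (W.map θ a)

lemma Tw.refl (f : Module.End W.K (W.H X)) : Tw f f :=
  ⟨rfl, 𝟙 X, 𝟙 X, Category.comp_id _, Category.comp_id _, fun a => by rw [W.map_id, W.map_id]⟩

lemma Tw.symm {f : Module.End W.K (W.H X)} {g : Module.End W.K (W.H Y)} (h : Tw f g) :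
    Tw g f := by
  obtain ⟨hd, θ, η, h1, h2, h3⟩ := h
  refine ⟨hd.symm, η, θ, h2, h1, fun a => ?_⟩
  have h4 := h3 (W.map η a)
  rw [← W.map_comp, h1, W.map_id] at h4
  rw [← h4, ← W.map_comp, h2, W.map_id]

lemma Tw.trans {f : Module.End W.K (W.H X)} {g : Module.End W.K (W.H Y)}
    {h : Module.End W.K (W.H Z)} (h1 : Tw f g) (h2 : Tw g h) : Tw f h := by
  obtain ⟨hd, θ, η, a1, a2, a3⟩ := h1
  obtain ⟨hd', θ', η', b1, b2, b3⟩ := h2
  refine ⟨hd.trans hd', θ ≫ θ', η' ≫ η, ?_, ?_, fun a => ?_⟩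
  · rw [Category.assoc, ← Category.assoc θ', b1, Category.id_comp, a1]
  · rw [Category.assoc, ← Category.assoc η, a2, Category.id_comp, b2]
  · rw [W.map_comp, b3, a3, ← W.map_comp]

lemma Tw.rk {f : Module.End W.K (W.H X)} {g : Module.End W.K (W.H Y)} (h : Tw f g) (j l : ℕ) :
    rk W X j l f = rk W Y j l g := by
  obtain ⟨hd, θ, η, h1, h2, h3⟩ := h
  exact (rk_iso θ η h1 h2 hd.symm h3 j l).symm

/-- The product of two morphisms. -/
noncomputable def pmap (φ : X ⟶ X') (ψ : Y ⟶ Y') : X.prod Y ⟶ X'.prod Y' :=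
  Obj.lift (fst X Y ≫ φ) (snd X Y ≫ ψ)

lemma pmap_fst (φ : X ⟶ X') (ψ : Y ⟶ Y') : pmap φ ψ ≫ fst X' Y' = fst X Y ≫ φ :=
  Obj.lift_fst _ _

lemma pmap_snd (φ : X ⟶ X') (ψ : Y ⟶ Y') : pmap φ ψ ≫ snd X' Y' = snd X Y ≫ ψ :=
  Obj.lift_snd _ _

lemma map_pmap (φ : X ⟶ X') (ψ : Y ⟶ Y') (a : W.H X') (b : W.H Y') :
    W.map (pmap φ ψ) (W.map (fst X' Y') a * W.map (snd X' Y') b) =
      W.map (fst X Y) (W.map φ a) * W.map (snd X Y) (W.map ψ b) := by
  rw [map_mul, ← W.map_comp, ← W.map_comp, pmap_fst, pmap_snd, W.map_comp, W.map_comp]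

lemma Tw.ext {f : Module.End W.K (W.H X)} {f' : Module.End W.K (W.H X')}
    {g : Module.End W.K (W.H Y)} {g' : Module.End W.K (W.H Y')} (h1 : Tw f f') (h2 : Tw g g') :
    Tw (extOp W f g) (extOp W f' g') := by
  obtain ⟨hd, θ, η, a1, a2, a3⟩ := h1
  obtain ⟨hd', θ', η', b1, b2, b3⟩ := h2
  refine ⟨by rw [dim_prod, dim_prod, hd, hd'], pmap θ θ', pmap η η', ?_, ?_, fun x => ?_⟩
  · apply prod_hom_ext
    · rw [Category.assoc, pmap_fst, ← Category.assoc, pmap_fst, Category.assoc, a1,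
        Category.comp_id, Category.id_comp]
    · rw [Category.assoc, pmap_snd, ← Category.assoc, pmap_snd, Category.assoc, b1,
        Category.comp_id, Category.id_comp]
  · apply prod_hom_ext
    · rw [Category.assoc, pmap_fst, ← Category.assoc, pmap_fst, Category.assoc, a2,
        Category.comp_id, Category.id_comp]
    · rw [Category.assoc, pmap_snd, ← Category.assoc, pmap_snd, Category.assoc, b2,
        Category.comp_id, Category.id_comp]
  · refine W.kunneth_induction (p := fun x => W.map (pmap θ θ') (extOp W f' g' x) =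
      extOp W f g (W.map (pmap θ θ') x)) ?_ ?_ x
    · intro a b ha hb
      rw [map_add, map_add, map_add, map_add, ha, hb]
    · intro i j a ha b hb
      rw [extOp_tmul, map_pmap, map_pmap, extOp_tmul, a3, b3]

lemma Tw.swap {f : Module.End W.K (W.H X)} {g : Module.End W.K (W.H Y)} (hf : Deg0 f)
    (hg : Deg0 g) : Tw (extOp W f g) (extOp W g f) := by
  refine ⟨by rw [dim_prod, dim_prod, add_comm], H914.swap X Y, H914.swap Y X, ?_, ?_,
    fun x => ?_⟩
  · apply prod_hom_ext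
    · rw [Category.assoc, swap_fst, swap_snd, Category.id_comp]
    · rw [Category.assoc, swap_snd, swap_fst, Category.id_comp]
  · apply prod_hom_ext
    · rw [Category.assoc, swap_fst, swap_snd, Category.id_comp]
    · rw [Category.assoc, swap_snd, swap_fst, Category.id_comp]
  · have key : ∀ (a : W.H Y) (b : W.H X) (i j : ℕ), a ∈ W.gr Y i → b ∈ W.gr X j →
        W.map (H914.swap X Y) (W.map (fst Y X) a * W.map (snd Y X) b) =
          (-1 : W.K) ^ (i * j) • (W.map (fst X Y) b * W.map (snd X Y) a) := by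
      intro a b i j ha hb
      rw [map_mul, ← W.map_comp, ← W.map_comp, swap_fst, swap_snd,
        W.comm (W.map_mem (snd X Y) ha) (W.map_mem (fst X Y) hb)]
    refine W.kunneth_induction (p := fun x => W.map (H914.swap X Y) (extOp W g f x) =
      extOp W f g (W.map (H914.swap X Y) x)) ?_ ?_ x
    · intro a b ha hb
      rw [map_add, map_add, map_add, map_add, ha, hb]
    · intro i j a ha b hb
      rw [extOp_tmul, key _ _ i j (hg i a ha) (hf j b hb), key a b i j ha hb, map_smul,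
        extOp_tmul]

/-- The associativity isomorphism. -/
noncomputable def asso (X Y Z : 𝒱.Obj) : (X.prod Y).prod Z ⟶ X.prod (Y.prod Z) :=
  Obj.lift (fst (X.prod Y) Z ≫ fst X Y)
    (Obj.lift (fst (X.prod Y) Z ≫ snd X Y) (snd (X.prod Y) Z))

/-- The inverse of the associativity isomorphism. -/
noncomputable def asso' (X Y Z : 𝒱.Obj) : X.prod (Y.prod Z) ⟶ (X.prod Y).prod Z :=
  Obj.lift (Obj.lift (fst X (Y.prod Z)) (snd X (Y.prod Z) ≫ fst Y Z))
    (snd X (Y.prod Z) ≫ snd Y Z)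

lemma asso_fst : asso X Y Z ≫ fst X (Y.prod Z) = fst (X.prod Y) Z ≫ fst X Y :=
  Obj.lift_fst _ _

lemma asso_snd_fst : asso X Y Z ≫ snd X (Y.prod Z) ≫ fst Y Z = fst (X.prod Y) Z ≫ snd X Y := by
  rw [← Category.assoc, asso, Obj.lift_snd, Obj.lift_fst]

lemma asso_snd_snd : asso X Y Z ≫ snd X (Y.prod Z) ≫ snd Y Z = snd (X.prod Y) Z := by
  rw [← Category.assoc, asso, Obj.lift_snd, Obj.lift_snd]

lemma asso'_snd : asso' X Y Z ≫ snd (X.prod Y) Z = snd X (Y.prod Z) ≫ snd Y Z :=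
  Obj.lift_snd _ _

lemma asso'_fst_fst : asso' X Y Z ≫ fst (X.prod Y) Z ≫ fst X Y = fst X (Y.prod Z) := by
  rw [← Category.assoc, asso', Obj.lift_fst, Obj.lift_fst]

lemma asso'_fst_snd : asso' X Y Z ≫ fst (X.prod Y) Z ≫ snd X Y = snd X (Y.prod Z) ≫ fst Y Z := by
  rw [← Category.assoc, asso', Obj.lift_fst, Obj.lift_snd]

lemma Tw.asso (f : Module.End W.K (W.H X)) (g : Module.End W.K (W.H Y))
    (h : Module.End W.K (W.H Z)) :
    Tw (extOp W (extOp W f g) h) (extOp W f (extOp W g h)) := by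
  refine ⟨by simp only [dim_prod]; ring, RL.asso X Y Z, RL.asso' X Y Z, ?_, ?_, fun x => ?_⟩
  · apply prod_hom_ext
    · rw [Category.id_comp]
      apply prod_hom_ext
      · rw [Category.assoc, Category.assoc, asso'_fst_fst, asso_fst]
      · rw [Category.assoc, Category.assoc, asso'_fst_snd, asso_snd_fst]
    · rw [Category.assoc, asso'_snd, asso_snd_snd, Category.id_comp]
  · apply prod_hom_ext
    · rw [Category.assoc, asso_fst, asso'_fst_fst, Category.id_comp]
    · rw [Category.id_comp]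
      apply prod_hom_ext
      · rw [Category.assoc, Category.assoc, asso_snd_fst, asso'_fst_snd]
      · rw [Category.assoc, Category.assoc, asso_snd_snd, asso'_snd]
  · have key : ∀ (a : W.H X) (b : W.H Y) (c : W.H Z),
        W.map (RL.asso X Y Z) (W.map (fst X (Y.prod Z)) a * W.map (snd X (Y.prod Z))
          (W.map (fst Y Z) b * W.map (snd Y Z) c)) =
        W.map (fst (X.prod Y) Z) (W.map (fst X Y) a * W.map (snd X Y) b) *
          W.map (snd (X.prod Y) Z) c := by
      intro a b c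
      have e1 : ∀ x : W.H X, W.map (RL.asso X Y Z) (W.map (fst X (Y.prod Z)) x) =
          W.map (fst (X.prod Y) Z) (W.map (fst X Y) x) := by
        intro x
        rw [← W.map_comp, asso_fst, W.map_comp]
      have e2 : ∀ x : W.H Y, W.map (RL.asso X Y Z) (W.map (snd X (Y.prod Z))
          (W.map (fst Y Z) x)) = W.map (fst (X.prod Y) Z) (W.map (snd X Y) x) := by
        intro x
        rw [← W.map_comp, ← W.map_comp, Category.assoc, asso_snd_fst, W.map_comp]
      have e3 : ∀ x : W.H Z, W.map (RL.asso X Y Z) (W.map (snd X (Y.prod Z))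
          (W.map (snd Y Z) x)) = W.map (snd (X.prod Y) Z) x := by
        intro x
        rw [← W.map_comp, ← W.map_comp, Category.assoc, asso_snd_snd]
      rw [map_mul (W.map (RL.asso X Y Z)), map_mul (W.map (snd X (Y.prod Z))),
        map_mul (W.map (RL.asso X Y Z)), e1, e2, e3, map_mul (W.map (fst (X.prod Y) Z)),
        mul_assoc]
    refine triple_induction (p := fun x => W.map (RL.asso X Y Z)
      (extOp W f (extOp W g h) x) = extOp W (extOp W f g) h (W.map (RL.asso X Y Z) x)) ?_ ?_ x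
    · intro a b ha hb
      rw [map_add, map_add, map_add, map_add, ha, hb]
    · intro i j l a ha b hb c hc
      rw [extOp_tmul, extOp_tmul, key, key, extOp_tmul, extOp_tmul]

/-! ### Adjoints -/

theorem s_adx : S_ADX W := by
  intro Y Z f g hf hg
  symm
  apply adj_unique
  have hf0 := deg0_of_mem hf
  have hg0 := deg0_of_mem hg
  have hf1 := deg0_of_mem (adj_mem hf)
  have hg1 := deg0_of_mem (adj_mem hg)
  intro a b
  refine W.kunneth_induction (p := fun a => W.tr (Y.prod Z) (extOp W f g a * b) =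
    W.tr (Y.prod Z) (a * extOp W (adj f) (adj g) b)) ?_ ?_ a
  · intro x y hx hy
    rw [map_add, add_mul, add_mul, map_add, map_add, hx, hy]
  intro i j a1 ha1 a2 ha2
  refine W.kunneth_induction (p := fun b => W.tr (Y.prod Z)
    (extOp W f g (W.map (fst Y Z) a1 * W.map (snd Y Z) a2) * b) =
    W.tr (Y.prod Z) (W.map (fst Y Z) a1 * W.map (snd Y Z) a2 *
      extOp W (adj f) (adj g) b)) ?_ ?_ b
  · intro x y hx hy
    rw [map_add, mul_add, mul_add, map_add, map_add, hx, hy]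
  intro l m b1 hb1 b2 hb2
  have key : ∀ (x1 : W.H Y) (x2 : W.H Z) (y1 : W.H Y) (y2 : W.H Z), x2 ∈ W.gr Z j →
      y1 ∈ W.gr Y l → W.tr (Y.prod Z) (W.map (fst Y Z) x1 * W.map (snd Y Z) x2 *
        (W.map (fst Y Z) y1 * W.map (snd Y Z) y2)) =
        (-1 : W.K) ^ (j * l) * (W.tr Y (x1 * y1) * W.tr Z (x2 * y2)) := by
    intro x1 x2 y1 y2 hx2 hy1
    rw [mul_assoc, ← mul_assoc (W.map (snd Y Z) x2),
      W.comm (W.map_mem (snd Y Z) hx2) (W.map_mem (fst Y Z) hy1), smul_mul_assoc,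
      mul_smul_comm, mul_assoc, ← mul_assoc (W.map (fst Y Z) x1), ← map_mul, ← map_mul,
      map_smul, W.tr_prod, smul_eq_mul]
  rw [extOp_tmul, extOp_tmul, key _ _ _ _ (hg0 j a2 ha2) hb1, key _ _ _ _ ha2 (hf1 l b1 hb1),
    adj_spec, adj_spec]

theorem s_rka : S_RKA W := by
  intro Z j f hf
  have key : ∀ f ∈ KOp W Z Z 0, rk W Z j j (adj f) ≤ rk W Z j j f := by
    intro f hf
    have h1 := LinearMap.finrank_range_dualMap_eq_finrank_range (form W Z j j f)
    rw [rk, rk, ← h1]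
    have h2 : LinearMap.range (form W Z j j (adj f)) ≤
        LinearMap.range (form W Z j j f).dualMap := by
      rintro _ ⟨a, rfl⟩
      refine ⟨Module.Dual.eval W.K _ a, ?_⟩
      ext b
      rw [LinearMap.dualMap_apply, Module.Dual.eval_apply, form_apply, form_apply,
        ← W.even_comm (span_gr b.2), ← adj_spec]
    exact Submodule.finrank_mono h2
  refine le_antisymm (key f hf) ?_
  have h1 := key (adj f) (adj_mem hf)
  rwa [adj_adj hf] at h1

theorem s_mu : S_MU W := by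
  intro hpar A B r hr
  have hev : (A.Z.dim + B.Z.dim) % 2 = 0 := by omega
  rw [gh, if_pos hev]
  have hj : (((A.Z.dim + B.Z.dim) / 2 : ℕ) : ℤ) = A.Z.dim + r := by omega
  rw [rk_extOp hj hr (hpar B.Z) (adj_mem A.mem) B.mem, adj_adj A.mem]

theorem s_sym : S_SYM W := by
  intro A B
  rw [gh, gh, add_comm B.Z.dim A.Z.dim]
  split_ifs with h
  · have h1 : Tw (extOp W (adj A.e) B.e) (extOp W B.e (adj A.e)) :=
      Tw.swap (deg0_of_mem (adj_mem A.mem)) (deg0_of_mem B.mem)
    rw [h1.rk]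
    have h2 := s_rka (B.Z.prod A.Z) ((A.Z.dim + B.Z.dim) / 2) (extOp W B.e (adj A.e))
      (KOp.cast (KOp.ext B.mem (adj_mem A.mem)) (by ring))
    rw [← h2, s_adx B.Z A.Z _ _ B.mem (adj_mem A.mem), adj_adj A.mem]
  · rfl

lemma gh_of_tw {A B A' B' : GOb W} (h : Tw (extOp W (adj A.e) B.e) (extOp W (adj A'.e) B'.e)) :
    gh A B = gh A' B' := by
  have hd := h.1
  rw [dim_prod, dim_prod] at hd
  rw [gh, gh, hd]
  split_ifs with h1
  · exact h.rk _ _
  · rfl

theorem s_adj : S_ADJ W := by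
  intro A B C
  apply gh_of_tw
  change Tw (extOp W (adj (extOp W A.e B.e)) C.e) (extOp W (adj A.e) (extOp W C.e (adj B.e)))
  rw [s_adx _ _ _ _ A.mem B.mem]
  exact (Tw.asso _ _ _).trans ((Tw.refl _).ext
    (Tw.swap (deg0_of_mem (adj_mem B.mem)) (deg0_of_mem C.mem)))

theorem s_com : S_COM W := by
  intro A B C
  apply gh_of_tw
  change Tw (extOp W (adj (extOp W A.e B.e)) C.e) (extOp W (adj (extOp W B.e A.e)) C.e)
  rw [s_adx _ _ _ _ A.mem B.mem, s_adx _ _ _ _ B.mem A.mem]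
  exact (Tw.swap (deg0_of_mem (adj_mem A.mem)) (deg0_of_mem (adj_mem B.mem))).ext (Tw.refl _)

theorem s_ass : S_ASS W := by
  intro A B C D
  apply gh_of_tw
  change Tw (extOp W (adj (extOp W (extOp W A.e B.e) C.e)) D.e)
    (extOp W (adj (extOp W A.e (extOp W B.e C.e))) D.e)
  have h1 : extOp W A.e B.e ∈ KOp W (A.Z.prod B.Z) (A.Z.prod B.Z) 0 := (gten A B).mem
  have h2 : extOp W B.e C.e ∈ KOp W (B.Z.prod C.Z) (B.Z.prod C.Z) 0 := (gten B C).mem
  rw [s_adx _ _ _ _ h1 C.mem, s_adx _ _ _ _ A.mem B.mem, s_adx _ _ _ _ A.mem h2,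
    s_adx _ _ _ _ B.mem C.mem]
  exact (Tw.asso _ _ _).ext (Tw.refl _)

lemma GOb.ext' {A B : GOb W} (hZ : A.Z = B.Z) (he : HEq A.e B.e) : A = B := by
  obtain ⟨Z, e, h1, h2⟩ := A
  obtain ⟨Z', e', h1', h2'⟩ := B
  dsimp only at hZ he
  subst hZ
  obtain rfl := eq_of_heq he
  rfl

theorem s_dua : S_DUA W := by
  refine ⟨fun A => ?_, fun A B => ?_, fun A B => ?_⟩
  · exact GOb.ext' (A := gdual (gdual A)) (B := A) rfl (heq_of_eq (adj_adj A.mem))
  · rw [gh, gh]
    change (if (A.Z.dim + B.Z.dim) % 2 = 0 then rk W (A.Z.prod B.Z) ((A.Z.dim + B.Z.dim) / 2)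
      ((A.Z.dim + B.Z.dim) / 2) (extOp W (adj (adj A.e)) (adj B.e)) else 0) = _
    split_ifs with h
    · rw [← s_adx _ _ _ _ (adj_mem A.mem) B.mem, s_rka _ _ _
        (KOp.cast (KOp.ext (adj_mem A.mem) B.mem) (by ring))]
    · rfl
  · exact GOb.ext' (A := gdual (gten A B)) (B := gten (gdual A) (gdual B)) rfl
      (heq_of_eq (s_adx _ _ _ _ A.mem B.mem))

end Pool.Agent.L7h85.RL
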