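import Pool.Agent.L7h85.RL.DecA
import Pool.Agent.L7h85.RL.G1

/-!
# The decomposition of idempotent correspondences into simple ones
-/

set_option linter.unusedVariables false
set_option linter.unusedSectionVars false

open CategoryTheory AlgebraicGeometry CategoryTheory.Limits

universe u v

namespace Pool.Agent.L7h85.RL

open Pool.Agent.H914 Pool.Agent.H447 Pool.Agent.W534 VarClass Obj WeilCohomology Module
open Pool.Agent.Y163

variable {k : Type u} [Field k] {𝒱 : VarClass k} {ops : CycleOps 𝒱}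
  {W : WeilCohomology.{u, v} ops}

lemma gh_odd {A B : GOb W} (h : (A.Z.dim + B.Z.dim) % 2 ≠ 0) : gh A B = 0 := by
  rw [gh, if_neg h]

theorem s_dec : S_DEC W := by
  intro hK hpar A
  obtain ⟨w⟩ := exists_wde (KAlg W A.Z) A.mem A.idem
  let Sc : w.C → GOb W := fun c => ⟨A.Z, w.e (w.rep c), w.e_mem _, by rw [w.e_mul, if_pos rfl]⟩
  have hmu : ∀ (c : w.C) (B : GOb W) (r : ℤ), (B.Z.dim : ℤ) = A.Z.dim + 2 * r →
      gh (Sc c) B = mu (KOp W A.Z B.Z r) (KOp W B.Z A.Z (-r)) B.e (w.e (w.rep c)) :=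
    fun c B r hr => s_mu hpar (Sc c) B r hr
  have hpr : ∀ B : GOb W, (A.Z.dim + B.Z.dim) % 2 = 0 → ∃ r : ℤ,
      (B.Z.dim : ℤ) = A.Z.dim + 2 * r := fun B h => ⟨((B.Z.dim : ℤ) - A.Z.dim) / 2, by omega⟩
  have hodd : ∀ (c : w.C) (B : GOb W), (A.Z.dim + B.Z.dim) % 2 ≠ 0 → gh (Sc c) B = 0 :=
    fun c B h => gh_odd (A := Sc c) (B := B) h
  refine ⟨{
    C := w.C
    S := Sc
    m := w.m
    m_pos := w.m_pos
    dim_pos := fun c => w.finrank_pos _
    ortho := ?_
    par := ?_
    dim_eq := w.finrank_eq A.idem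
    bessel := ?_
    bessel_dim := ?_ }⟩
  · intro c c'
    rw [hmu c (Sc c') 0 (by change (A.Z.dim : ℤ) = _; ring)]
    have e1 : mu (KOp W A.Z (Sc c').Z 0) (KOp W (Sc c').Z A.Z (-0)) (Sc c').e (w.e (w.rep c)) =
        mu (Subalgebra.toSubmodule (KAlg W A.Z)) (Subalgebra.toSubmodule (KAlg W A.Z))
          (w.e (w.rep c')) (w.e (w.rep c)) := by
      rw [neg_zero]
      rfl
    rw [e1]
    split_ifs with h
    · subst h
      exact mu_diag (w.e_mem _) (by rw [w.e_mul, if_pos rfl]) (w.e_ne _) (w.diag _)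
    · refine mu_off (w.off _ _ ?_)
      rw [w.κ_rep, w.κ_rep]
      exact Ne.symm h
  · intro B
    by_cases hB : (A.Z.dim + B.Z.dim) % 2 = 0
    · obtain ⟨r, hr⟩ := hpr B hB
      rw [s_mu hpar A B r hr, w.mu_eq (duo W A.Z B.Z r) B.mem]
      exact Finset.sum_congr rfl fun c _ => by rw [hmu c B r hr]
    · rw [gh_odd hB]
      symm
      exact Finset.sum_eq_zero fun c _ => by rw [hodd c B hB, mul_zero]
  · intro B B'
    by_cases hB : (A.Z.dim + B.Z.dim) % 2 = 0
    · by_cases hB' : (A.Z.dim + B'.Z.dim) % 2 = 0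
      · obtain ⟨r, hr⟩ := hpr B hB
        obtain ⟨r', hr'⟩ := hpr B' hB'
        rw [s_mu hpar B B' (r' - r) (by omega)]
        have h1 := sum_mu_mul_mu_le (R := KOp W B.Z B'.Z (r' - r))
          (T := KOp W B'.Z B.Z (-(r' - r))) (duo W A.Z B.Z r) (duo W A.Z B'.Z r')
          (fun y hy x hx => KOp.cast (KOp.comp hx hy) (by ring))
          (fun x hx y hy => KOp.cast (KOp.comp hx hy) (by ring)) w.prims B.mem B.idem
          B'.mem B'.idem
        refine le_trans (le_of_eq ?_) h1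
        exact Finset.sum_congr rfl fun c _ => by rw [hmu c B r hr, hmu c B' r' hr']
      · rw [Finset.sum_eq_zero fun c _ => by rw [hodd c B' hB', mul_zero]]
        exact Nat.zero_le _
    · rw [Finset.sum_eq_zero fun c _ => by rw [hodd c B hB, zero_mul]]
      exact Nat.zero_le _
  · intro B
    by_cases hB : (A.Z.dim + B.Z.dim) % 2 = 0
    · obtain ⟨r, hr⟩ := hpr B hB
      have h1 := sum_mu_mul_rank_le (duo W A.Z B.Z r) w.prims B.mem B.idem
      refine le_trans (le_of_eq ?_) h1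
      exact Finset.sum_congr rfl fun c _ => by rw [hmu c B r hr]; rfl
    · rw [Finset.sum_eq_zero fun c _ => by rw [hodd c B hB, zero_mul]]
      exact Nat.zero_le _

end Pool.Agent.L7h85.RL
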