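import Pool.Agent.Y163.DuoB

/-!
# Decomposition of an idempotent; additivity; Bessel inequality for two targets
-/

set_option linter.unusedVariables false
set_option linter.unusedSectionVars false

namespace Pool.Agent.L7h85.RL

open Module Finset Pool.Agent.Y163

variable {K : Type*} [Field K] {V : Type*} [AddCommGroup V] [Module K V]

/-! ### The corner algebra -/

/-- Compression to the range of the idempotent. -/
noncomputable def cmp (e : End K V) (x : End K V) : End K (LinearMap.range e) :=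
  e.rangeRestrict ∘ₗ x ∘ₗ (LinearMap.range e).subtype

/-- Extension by zero. -/
noncomputable def lft (e : End K V) (g : End K (LinearMap.range e)) : End K V :=
  (LinearMap.range e).subtype ∘ₗ g ∘ₗ e.rangeRestrict

lemma sub_rr (e : End K V) (x : V) : ((LinearMap.range e).subtype (e.rangeRestrict x)) = e x := rfl

lemma rr_sub {e : End K V} (he : e * e = e) (x : LinearMap.range e) :
    e.rangeRestrict (x : V) = x := by
  obtain ⟨_, y, rfl⟩ := x
  apply Subtype.ext
  exact congrArg (fun f => f y) he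

lemma cmp_mul {e : End K V} (x y : End K V) : cmp e x * cmp e y = cmp e (x * e * y) := rfl

lemma cmp_one {e : End K V} (he : e * e = e) : cmp e 1 = 1 := by
  apply LinearMap.ext
  intro x
  exact rr_sub he x

lemma cmp_add (e : End K V) (x y : End K V) : cmp e (x + y) = cmp e x + cmp e y := by
  rw [cmp, LinearMap.add_comp, LinearMap.comp_add]; rfl

lemma cmp_smul (e : End K V) (c : K) (x : End K V) : cmp e (c • x) = c • cmp e x := by
  rw [cmp, LinearMap.smul_comp, LinearMap.comp_smul]; rfl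

lemma lft_mul {e : End K V} (he : e * e = e) (g h : End K (LinearMap.range e)) :
    lft e g * lft e h = lft e (g * h) := by
  apply LinearMap.ext
  intro x
  change ((g (e.rangeRestrict ((h (e.rangeRestrict x) : LinearMap.range e) : V)) :
    LinearMap.range e) : V) = ((g (h (e.rangeRestrict x)) : LinearMap.range e) : V)
  rw [rr_sub he]

lemma lft_mul_mul {e : End K V} (g h : End K (LinearMap.range e)) (x : End K V) :
    lft e g * x * lft e h = lft e (g * cmp e x * h) := rfl

lemma lft_cmp {e : End K V} (x : End K V) : lft e (cmp e x) = e * x * e := rfl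

lemma lft_one {e : End K V} : lft e 1 = e := rfl

lemma lft_zero {e : End K V} : lft e 0 = 0 := by
  rw [lft, LinearMap.zero_comp, LinearMap.comp_zero]

lemma lft_add {e : End K V} (g h : End K (LinearMap.range e)) :
    lft e (g + h) = lft e g + lft e h := by
  rw [lft, LinearMap.add_comp, LinearMap.comp_add]; rfl

lemma lft_smul {e : End K V} (c : K) (g : End K (LinearMap.range e)) :
    lft e (c • g) = c • lft e g := by
  rw [lft, LinearMap.smul_comp, LinearMap.comp_smul]; rfl

lemma lft_sub {e : End K V} (g h : End K (LinearMap.range e)) :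
    lft e (g - h) = lft e g - lft e h := by
  rw [lft, LinearMap.sub_comp, LinearMap.comp_sub]; rfl

lemma lft_sum {e : End K V} {ι : Type*} (s : Finset ι) (g : ι → End K (LinearMap.range e)) :
    lft e (∑ i ∈ s, g i) = ∑ i ∈ s, lft e (g i) := by
  classical
  induction s using Finset.induction_on with
  | empty => rw [Finset.sum_empty, Finset.sum_empty, lft_zero]
  | insert a s ha ih => rw [Finset.sum_insert ha, Finset.sum_insert ha, lft_add, ih]

lemma lft_inj {e : End K V} (he : e * e = e) {g : End K (LinearMap.range e)}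
    (h : lft e g = 0) : g = 0 := by
  apply LinearMap.ext
  intro x
  apply Subtype.ext
  have h1 := congrArg (fun f => f (x : V)) h
  change ((g (e.rangeRestrict (x : V)) : LinearMap.range e) : V) = 0 at h1
  rw [rr_sub he] at h1
  exact h1

/-- The corner algebra. -/
noncomputable def corner (B : Subalgebra K (End K V)) {e : End K V} (heB : e ∈ B)
    (he : e * e = e) : Subalgebra K (End K (LinearMap.range e)) where
  carrier := {g | ∃ x ∈ B, cmp e x = g}
  mul_mem' := by
    rintro _ _ ⟨x, hx, rfl⟩ ⟨y, hy, rfl⟩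
    exact ⟨x * e * y, B.mul_mem (B.mul_mem hx heB) hy, (cmp_mul x y).symm⟩
  add_mem' := by
    rintro _ _ ⟨x, hx, rfl⟩ ⟨y, hy, rfl⟩
    exact ⟨x + y, B.add_mem hx hy, cmp_add e x y⟩
  algebraMap_mem' := fun r => ⟨r • 1, B.smul_mem B.one_mem r, by
    rw [cmp_smul, cmp_one he, Algebra.algebraMap_eq_smul_one]⟩

variable [Module.Finite K V]

lemma lft_mem {B : Subalgebra K (End K V)} {e : End K V} (heB : e ∈ B) (he : e * e = e)
    {g : End K (LinearMap.range e)} (hg : g ∈ corner B heB he) : lft e g ∈ B := by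
  obtain ⟨x, hx, rfl⟩ := hg
  rw [lft_cmp]
  exact B.mul_mem (B.mul_mem heB hx) heB

lemma lft_rad {B : Subalgebra K (End K V)} {e : End K V} (heB : e ∈ B) (he : e * e = e)
    {g : End K (LinearMap.range e)} (hg : g ∈ rad (corner B heB he)) : lft e g ∈ rad B := by
  refine ⟨lft_mem heB he hg.1, fun y hy => ?_⟩
  have h1 := hg.2 (cmp e y) ⟨y, hy, rfl⟩
  rw [← h1]
  have h2 : lft e g * y = (LinearMap.range e).subtype ∘ₗ (g ∘ₗ e.rangeRestrict ∘ₗ y) := rfl
  rw [h2, LinearMap.trace_comp_comm']
  rfl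

/-- The decomposition of an idempotent of the algebra into idempotents which are primitive modulo
the radical of the trace form. -/
structure Wde (B : Subalgebra K (End K V)) (e₀ : End K V) where
  /-- the index set of the idempotents -/
  I : Type
  /-- the set of the isomorphism classes -/
  C : Type
  [fI : Fintype I]
  [dI : DecidableEq I]
  [fC : Fintype C]
  [dC : DecidableEq C]
  /-- the isomorphism class -/
  κ : I → C
  /-- representatives -/
  rep : C → I
  κ_rep : ∀ c, κ (rep c) = c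
  /-- the idempotents -/
  e : I → End K V
  e_mem : ∀ i, e i ∈ B
  e_mul : ∀ i j, e i * e j = if i = j then e i else 0
  e_sum : ∑ i, e i = e₀
  e_ne : ∀ i, e i ≠ 0
  off : ∀ i j, κ i ≠ κ j → ∀ x ∈ B, e i * x * e j ∈ rad B
  diag : ∀ i, ∀ x ∈ B, ∃ a : K, e i * x * e i - a • e i ∈ rad B
  conn : ∀ i j, κ i = κ j → ∃ u ∈ B, ∃ v ∈ B, e i * u = u ∧ u * e j = u ∧ e j * v = v ∧
    v * e i = v ∧ u * v - e i ∈ rad B ∧ v * u - e j ∈ rad B

attribute [instance] Wde.fI Wde.dI Wde.fC Wde.dC

theorem exists_wde [IsAlgClosed K] [CharZero K] (B : Subalgebra K (End K V)) {e₀ : End K V}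
    (heB : e₀ ∈ B) (he : e₀ * e₀ = e₀) : Nonempty (Wde B e₀) := by
  obtain ⟨w⟩ := exists_wed (corner B heB he)
  let := w.fI
  let := w.dI
  let := w.fC
  let := w.dC
  refine ⟨{
    I := w.I
    C := w.C
    κ := w.κ
    rep := w.rep
    κ_rep := w.κ_rep
    e := fun i => lft e₀ (w.e i)
    e_mem := fun i => lft_mem heB he (w.e_mem i)
    e_mul := fun i j => by
      rw [lft_mul he, w.e_mul]
      split_ifs
      · rfl
      · exact lft_zero
    e_sum := by rw [← lft_sum, w.e_sum, lft_one]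
    e_ne := fun i h => w.e_ne i (lft_inj he h)
    off := fun i j hij x hx => by
      rw [lft_mul_mul]
      exact lft_rad heB he (w.off i j hij _ ⟨x, hx, rfl⟩)
    diag := fun i x hx => by
      obtain ⟨a, ha⟩ := w.diag i _ ⟨x, hx, rfl⟩
      refine ⟨a, ?_⟩
      rw [lft_mul_mul, ← lft_smul, ← lft_sub]
      exact lft_rad heB he ha
    conn := fun i j hij => by
      obtain ⟨u, hu, v, hv, h1, h2, h3, h4, h5, h6⟩ := w.conn i j hij
      refine ⟨lft e₀ u, lft_mem heB he hu, lft e₀ v, lft_mem heB he hv, ?_, ?_, ?_, ?_, ?_, ?_⟩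
      · rw [lft_mul he, h1]
      · rw [lft_mul he, h2]
      · rw [lft_mul he, h3]
      · rw [lft_mul he, h4]
      · rw [lft_mul he, ← lft_sub]
        exact lft_rad heB he h5
      · rw [lft_mul he, ← lft_sub]
        exact lft_rad heB he h6 }⟩

lemma Wde.prims {B : Subalgebra K (End K V)} {e₀ : End K V} (w : Wde B e₀) :
    Prims B (fun c => w.e (w.rep c)) where
  mem c := w.e_mem _
  idem c := by rw [w.e_mul, if_pos rfl]
  ne c := w.e_ne _
  off c c' h x hx := by
    apply w.off _ _ _ x hx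
    rw [w.κ_rep, w.κ_rep]
    exact h
  diag c x hx := w.diag _ x hx

/-- The multiplicities. -/
def Wde.m {B : Subalgebra K (End K V)} {e₀ : End K V} (w : Wde B e₀) (c : w.C) : ℕ :=
  (univ.filter fun i => w.κ i = c).card

lemma Wde.m_pos {B : Subalgebra K (End K V)} {e₀ : End K V} (w : Wde B e₀) (c : w.C) :
    0 < w.m c := by
  rw [Wde.m, Finset.card_pos]
  exact ⟨w.rep c, Finset.mem_filter.2 ⟨Finset.mem_univ _, w.κ_rep c⟩⟩

lemma Wde.sum_eq {B : Subalgebra K (End K V)} {e₀ : End K V} (w : Wde B e₀) (F : w.C → ℕ) :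
    ∑ i, F (w.κ i) = ∑ c, w.m c * F c := by
  rw [← Finset.sum_fiberwise (s := univ) (g := w.κ)]
  apply Finset.sum_congr rfl
  intro c _
  rw [Finset.sum_congr rfl (g := fun _ => F c), Finset.sum_const, smul_eq_mul, Wde.m]
  intro i hi
  rw [(Finset.mem_filter.1 hi).2]

/-! ### Dimensions -/

lemma Wde.finrank_rep [CharZero K] {B : Subalgebra K (End K V)} {e₀ : End K V} (w : Wde B e₀)
    (i : w.I) : finrank K (LinearMap.range (w.e i)) =
      finrank K (LinearMap.range (w.e (w.rep (w.κ i)))) := by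
  obtain ⟨u, hu, v, hv, -, -, -, -, h5, h6⟩ := w.conn i (w.rep (w.κ i)) (w.κ_rep _).symm
  have h7 := trace_rad h5
  have h8 := trace_rad h6
  rw [map_sub, sub_eq_zero] at h7 h8
  rw [LinearMap.trace_mul_comm, h8, trace_idem (by rw [w.e_mul, if_pos rfl]),
    trace_idem (by rw [w.e_mul, if_pos rfl])] at h7
  exact_mod_cast h7.symm

lemma Wde.finrank_eq [CharZero K] {B : Subalgebra K (End K V)} {e₀ : End K V} (w : Wde B e₀)
    (he : e₀ * e₀ = e₀) : finrank K (LinearMap.range e₀) =
      ∑ c, w.m c * finrank K (LinearMap.range (w.e (w.rep c))) := by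
  rw [← w.sum_eq (fun c => finrank K (LinearMap.range (w.e (w.rep c))))]
  have h1 := trace_idem he
  rw [← w.e_sum, map_sum, w.e_sum] at h1
  have h2 : ∀ i, LinearMap.trace K V (w.e i) =
      ((finrank K (LinearMap.range (w.e (w.rep (w.κ i)))) : ℕ) : K) := by
    intro i
    rw [← w.finrank_rep i]
    exact trace_idem (by rw [w.e_mul, if_pos rfl])
  simp only [h2] at h1
  exact_mod_cast h1.symm

lemma Wde.finrank_pos [CharZero K] {B : Subalgebra K (End K V)} {e₀ : End K V} (w : Wde B e₀)
    (i : w.I) : 0 < finrank K (LinearMap.range (w.e i)) := by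
  have := rank_idem_ne (K := K) (w.e_ne i)
  exact Nat.pos_of_ne_zero (fun h => this (by rw [h, Nat.cast_zero]))

/-! ### Additivity -/

section Two

variable {V₂ : Type*} [AddCommGroup V₂] [Module K V₂] [Module.Finite K V₂]
  {B₁ : Subalgebra K (End K V)} {B₂ : Subalgebra K (End K V₂)}
  {P : Submodule K (V →ₗ[K] V₂)} {Q : Submodule K (V₂ →ₗ[K] V)}

/-- Multiplicities are additive for orthogonal idempotents. -/
lemma mu_sum_eq (D : Duo B₁ B₂ P Q) {I : Type*} [Fintype I] [DecidableEq I] {e : I → End K V}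
    (he : ∀ i, e i ∈ B₁) (hee : ∀ i j, e i * e j = if i = j then e i else 0) {h : End K V₂} :
    mu P Q h (∑ i, e i) = ∑ i, mu P Q h (e i) := by
  apply le_antisymm
  · have h1 := mu_sum_le P Q (univ : Finset Unit) (univ : Finset I) (fun _ => h) e
    simp only [Finset.univ_unique, Finset.sum_singleton] at h1
    exact h1
  · have key : ∀ i, ∃ (x : Fin (mu P Q h (e i)) → P) (y : Fin (mu P Q h (e i)) → Q), ∀ a b,
        bt P Q h (e i) (x a) (y b) = if a = b then (1 : K) else 0 :=
      fun i => exists_dual_family (bt P Q h (e i)) 1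
    choose x y hxy using key
    let ι := Σ i, Fin (mu P Q h (e i))
    have h1 := le_rank_of_dual (ι := ι) (bt P Q h (∑ i, e i))
      (fun s => ⟨(x s.1 s.2 : V →ₗ[K] V₂) ∘ₗ e s.1, D.xf _ (he _) _ (x s.1 s.2).2⟩)
      (fun s => ⟨e s.1 ∘ₗ (y s.1 s.2 : V₂ →ₗ[K] V), D.fy _ (he _) _ (y s.1 s.2).2⟩)
      (fun _ => (1 : K)) (fun _ => one_ne_zero) (by
        rintro ⟨i, a⟩ ⟨j, b⟩
        rw [bt_apply]
        have e1 : (e j ∘ₗ (y j b : V₂ →ₗ[K] V)) ∘ₗ h ∘ₗ ((x i a : V →ₗ[K] V₂) ∘ₗ e i) ∘ₗ
            (∑ l, e l) = e j * (((y j b : V₂ →ₗ[K] V) ∘ₗ h ∘ₗ (x i a : V →ₗ[K] V₂)) *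
              (e i * ∑ l, e l)) := rfl
        have e2 : e i * ∑ l, e l = e i := by
          rw [Finset.mul_sum]
          simp only [hee]
          rw [Finset.sum_ite_eq, if_pos (Finset.mem_univ _)]
        change LinearMap.trace K V ((e j ∘ₗ (y j b : V₂ →ₗ[K] V)) ∘ₗ h ∘ₗ
          ((x i a : V →ₗ[K] V₂) ∘ₗ e i) ∘ₗ (∑ l, e l)) = _
        rw [e1, e2, LinearMap.trace_mul_comm, mul_assoc, hee]
        by_cases hij : i = j
        · subst hij
          rw [if_pos rfl]
          have h3 := hxy i a b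
          rw [bt_apply] at h3
          change LinearMap.trace K V ((y i b : V₂ →ₗ[K] V) ∘ₗ h ∘ₗ (x i a : V →ₗ[K] V₂) ∘ₗ
            e i) = _
          rw [h3]
          by_cases hab : a = b
          · subst hab
            rw [if_pos rfl, if_pos rfl]
          · rw [if_neg hab, if_neg]
            intro h7
            apply hab
            have := (Sigma.mk.injEq _ _ _ _).mp h7
            exact eq_of_heq this.2
        · rw [if_neg hij, mul_zero, map_zero, if_neg]
          intro h7
          exact hij (congrArg Sigma.fst h7))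
    rw [Fintype.card_sigma] at h1
    simp only [Fintype.card_fin] at h1
    exact h1

variable [CharZero K]

lemma Wde.mu_rep {e₀ : End K V} (w : Wde B₁ e₀) (D : Duo B₁ B₂ P Q) {h : End K V₂}
    (hh : h ∈ B₂) (i : w.I) : mu P Q h (w.e i) = mu P Q h (w.e (w.rep (w.κ i))) := by
  obtain ⟨u, hu, v, hv, h1, h2, h3, h4, h5, h6⟩ := w.conn i (w.rep (w.κ i)) (w.κ_rep _).symm
  exact le_antisymm (mu_conn_gen D hu hv h2 h5 hh) (mu_conn_gen D hv hu h4 h6 hh)

lemma Wde.mu_eq {e₀ : End K V} (w : Wde B₁ e₀) (D : Duo B₁ B₂ P Q) {h : End K V₂}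
    (hh : h ∈ B₂) : mu P Q h e₀ = ∑ c, w.m c * mu P Q h (w.e (w.rep c)) := by
  rw [← w.sum_eq (fun c => mu P Q h (w.e (w.rep c)))]
  have h1 := mu_sum_eq D w.e_mem w.e_mul (h := h)
  rw [w.e_sum] at h1
  rw [h1]
  exact Finset.sum_congr rfl fun i _ => w.mu_rep D hh i

end Two

/-! ### Orthogonality -/

lemma mu_off [CharZero K] {B : Subalgebra K (End K V)} {e f : End K V}
    (h : ∀ x ∈ B, f * x * e ∈ rad B) :
    mu (Subalgebra.toSubmodule B) (Subalgebra.toSubmodule B) f e = 0 := by
  have h1 : bt (Subalgebra.toSubmodule B) (Subalgebra.toSubmodule B) f e = 0 := by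
    apply LinearMap.ext
    intro x
    apply LinearMap.ext
    intro y
    rw [bt_apply]
    change LinearMap.trace K V ((y : End K V) * (f * ((x : End K V) * e))) = 0
    rw [LinearMap.trace_mul_comm, ← mul_assoc]
    exact (h x x.2).2 y y.2
  rw [mu, h1, LinearMap.range_zero, finrank_bot]

lemma mu_diag [CharZero K] {B : Subalgebra K (End K V)} {e : End K V} (heB : e ∈ B)
    (he : e * e = e) (hne : e ≠ 0) (h : ∀ x ∈ B, ∃ a : K, e * x * e - a • e ∈ rad B) :
    mu (Subalgebra.toSubmodule B) (Subalgebra.toSubmodule B) e e = 1 := by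
  apply le_antisymm
  · have h1 : LinearMap.range (bt (Subalgebra.toSubmodule B) (Subalgebra.toSubmodule B) e e) ≤
        Submodule.span K {bt (Subalgebra.toSubmodule B) (Subalgebra.toSubmodule B) e e
          ⟨1, B.one_mem⟩} := by
      rintro _ ⟨x, rfl⟩
      rw [Submodule.mem_span_singleton]
      obtain ⟨a, ha⟩ := h x x.2
      refine ⟨a, ?_⟩
      apply LinearMap.ext
      intro y
      rw [LinearMap.smul_apply, bt_apply, bt_apply]
      change a • LinearMap.trace K V ((y : End K V) * (e * (1 * e))) =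
        LinearMap.trace K V ((y : End K V) * (e * ((x : End K V) * e)))
      rw [one_mul, he, LinearMap.trace_mul_comm K (y : End K V) (e * _), ← mul_assoc e,
        LinearMap.trace_mul_comm K (y : End K V) e]
      have h2 := ha.2 y y.2
      rw [sub_mul, map_sub, smul_mul_assoc, map_smul, sub_eq_zero] at h2
      exact h2.symm
    exact (Submodule.finrank_mono h1).trans ((finrank_span_le_card _).trans (by simp))
  · have h1 := le_rank_of_dual (ι := Unit)
      (bt (Subalgebra.toSubmodule B) (Subalgebra.toSubmodule B) e e)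
      (fun _ => ⟨1, B.one_mem⟩) (fun _ => ⟨1, B.one_mem⟩)
      (fun _ => LinearMap.trace K V e) (fun _ => by
        rw [trace_idem he]
        exact rank_idem_ne hne) (fun a b => by
        rw [if_pos (Subsingleton.elim _ _), bt_apply]
        change LinearMap.trace K V (1 * (e * (1 * e))) = _
        rw [one_mul, one_mul, he])
    rw [Fintype.card_unit] at h1
    exact h1

/-! ### Bessel inequality for two targets -/

section Three

variable [CharZero K] {V₂ : Type*} [AddCommGroup V₂] [Module K V₂] [Module.Finite K V₂]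
  {V₃ : Type*} [AddCommGroup V₃] [Module K V₃] [Module.Finite K V₃]
  {B₁ : Subalgebra K (End K V)} {B₂ : Subalgebra K (End K V₂)} {B₃ : Subalgebra K (End K V₃)}
  {P : Submodule K (V →ₗ[K] V₂)} {Q : Submodule K (V₂ →ₗ[K] V)}
  {P' : Submodule K (V →ₗ[K] V₃)} {Q' : Submodule K (V₃ →ₗ[K] V)}
  {R : Submodule K (V₂ →ₗ[K] V₃)} {T : Submodule K (V₃ →ₗ[K] V₂)}

theorem sum_mu_mul_mu_le (D : Duo B₁ B₂ P Q) (D' : Duo B₁ B₃ P' Q')
    (hR : ∀ y ∈ Q, ∀ x ∈ P', x ∘ₗ y ∈ R) (hT : ∀ x ∈ P, ∀ y ∈ Q', x ∘ₗ y ∈ T)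
    {C : Type} [Fintype C] {e : C → End K V} (he : Prims B₁ e)
    {h : End K V₂} (hh : h ∈ B₂) (hhh : h * h = h)
    {h' : End K V₃} (hh' : h' ∈ B₃) (hhh' : h' * h' = h') :
    ∑ c, mu P Q h (e c) * mu P' Q' h' (e c) ≤ mu R T h' h := by
  classical
  obtain ⟨X, Y, hX, hY, hhX, hXe, heY, hYh, hoff, hdiag⟩ := exists_dual_ops D he hh hhh
  obtain ⟨X', Y', hX', hY', hhX', hXe', heY', hYh', hoff', hdiag'⟩ :=
    exists_dual_ops D' he hh' hhh'
  let ι := Σ c, Fin (mu P Q h (e c)) × Fin (mu P' Q' h' (e c))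
  have h1 := le_rank_of_dual (ι := ι) (bt R T h' h)
    (fun i => ⟨X' i.1 i.2.2 ∘ₗ Y i.1 i.2.1, hR _ (hY _ _) _ (hX' _ _)⟩)
    (fun i => ⟨X i.1 i.2.1 ∘ₗ Y' i.1 i.2.2, hT _ (hX _ _) _ (hY' _ _)⟩)
    (fun i => LinearMap.trace K V (e i.1))
    (fun i => by
      rw [trace_idem (he.idem i.1)]
      exact rank_idem_ne (he.ne i.1))
    (by
      rintro ⟨c, a, a'⟩ ⟨c', b, b'⟩
      rw [bt_apply]
      change LinearMap.trace K V₂ ((X c' b ∘ₗ Y' c' b') ∘ₗ h' ∘ₗ (X' c a' ∘ₗ Y c a) ∘ₗ h) = _
      have e1 : (X c' b ∘ₗ Y' c' b') ∘ₗ h' ∘ₗ (X' c a' ∘ₗ Y c a) ∘ₗ h =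
          X c' b ∘ₗ (Y' c' b' ∘ₗ (h' ∘ₗ X' c a') ∘ₗ (Y c a ∘ₗ h)) := rfl
      rw [e1, hhX', hYh, LinearMap.trace_comp_comm']
      have e2 : (Y' c' b' ∘ₗ X' c a' ∘ₗ Y c a) ∘ₗ X c' b =
          (Y' c' b' ∘ₗ X' c a') * (Y c a ∘ₗ X c' b) := rfl
      rw [e2]
      have hm : Y c a ∘ₗ X c' b ∈ B₁ := D.yx _ (hX _ _) _ (hY _ _)
      by_cases hcc : c = c'
      · subst hcc
        have h2 := hdiag' c a' b'
        have h2' := hdiag c b a
        by_cases haa : a' = b'
        · subst haa
          rw [if_pos rfl] at h2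
          have h3 := trace_rad (rad_mul_right h2 hm)
          rw [sub_mul, map_sub, sub_eq_zero] at h3
          rw [h3]
          have h4 : e c * (Y c a ∘ₗ X c b) = Y c a ∘ₗ X c b := by
            rw [Module.End.mul_eq_comp, ← LinearMap.comp_assoc, heY]
          rw [h4]
          have h5 := trace_rad h2'
          rw [map_sub, sub_eq_zero] at h5
          rw [h5]
          by_cases hbb : b = a
          · subst hbb
            rw [if_pos rfl, if_pos rfl]
          · rw [if_neg hbb, if_neg, map_zero]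
            intro h6
            apply hbb
            have h7 := (Sigma.mk.injEq _ _ _ _).mp h6
            have h8 := eq_of_heq h7.2
            exact (congrArg Prod.fst h8).symm
        · rw [if_neg haa, sub_zero] at h2
          rw [trace_rad (rad_mul_right h2 hm), if_neg]
          intro h6
          apply haa
          have h7 := (Sigma.mk.injEq _ _ _ _).mp h6
          have h8 := eq_of_heq h7.2
          exact congrArg Prod.snd h8
      · have h2 := hoff' c' c a' b' (Ne.symm hcc)
        rw [trace_rad (rad_mul_right h2 hm), if_neg]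
        intro h6
        exact hcc (congrArg Sigma.fst h6))
  have h2 : Fintype.card ι = ∑ c, mu P Q h (e c) * mu P' Q' h' (e c) := by
    rw [Fintype.card_sigma]
    apply Finset.sum_congr rfl
    intro c _
    rw [Fintype.card_prod, Fintype.card_fin, Fintype.card_fin]
  rw [← h2]
  exact h1

end Three

end Pool.Agent.L7h85.RL
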