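import Pool.Agent.L7h85.RL.Stm

/-!
# The triangle property
-/

set_option autoImplicit false

namespace Pool.Agent.L7h85.RL

universe u

/-- [TRI] The property `tri` of a system follows from the other ones. -/
def S_TRI : Prop := ∀ {Ob : Type u} (h : Ob → Ob → ℕ) (dim : Ob → ℕ) (ten : Ob → Ob → Ob)
    (dual : Ob → Ob), (∀ A B, h A B = h B A) → (∀ A B C, h (ten A B) C = h A (ten C (dual B))) →
  (∀ A B C, h (ten A B) C = h (ten B A) C) → (∀ A B, dim (ten A B) = dim A * dim B) →
  (∀ A, Nonempty (Dec h dim A)) → ∀ A B C, 0 < dim C → h A B ≤ h (ten A C) (ten B C)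

end Pool.Agent.L7h85.RL
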