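import Pool.Agent.L7h85.RL.Abs
import Pool.Agent.L7h85.RL.DecB
import Pool.Agent.L7h85.RL.Geo2
import Pool.Agent.L7h85.RL.Stm2
import Pool.Agent.L7h26.RL.Tri
import Pool.Agent.L7h32.RL.Gen
import Pool.Agent.L7h73.RL.Sta
import Pool.Agent.L7h89.RL.Prj

/-!
# Assembly of the root law
-/

set_option linter.unusedVariables false
set_option linter.unusedSectionVars false

open CategoryTheory AlgebraicGeometry CategoryTheory.Limits

universe u v w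

namespace Pool.Agent.L7h85.RL

/-! ### The abstract law for the function `τ` -/

theorem s_ABT (hLOT : S_LOT.{w}) : S_ABT.{w} := by
  intro Ob 𝒮 T hT V O R hV hs τ hτ κ C hpos hC hE e hgr
  have hREP : S_REP.{w} := L7h26.RL.s_REP
  have hSCF : S_SCF.{w} := L7h73.RL.s_SCF hREP
  have hLOG : S_LOG.{w} := L7h26.RL.s_LOG
  have hPOS : S_POS.{w} := L7h32.RL.s_POS
  have hz : ∀ n, 0 < τ (O n) := by
    intro n
    have h1 := hPOS 𝒮 T hT V O R hV hs κ n hpos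
    obtain ⟨D, hD⟩ := hτ (O n) (hs n).mem
    refine lt_of_lt_of_le ?_ hD
    rw [D.dim_eq] at h1
    obtain ⟨c, -, hc⟩ := Finset.exists_ne_zero_of_sum_ne_zero h1.ne'
    exact Finset.sum_pos' (fun _ _ => Nat.zero_le _) ⟨c, Finset.mem_univ _, D.m_pos c⟩
  have hα : ∀ n, 0 < 𝒮.h (𝒮.pw V n) (𝒮.pw V n) := by
    intro n
    apply Nat.pos_of_ne_zero
    intro h0
    have h1 := hgr n
    rw [h0, zero_mul] at h1
    have h2 : 0 < 𝒮.dim V ^ (2 * (n + 1)) := pow_pos hV _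
    omega
  have hlc : ∀ n, 𝒮.h (𝒮.pw V (n + 1)) (𝒮.pw V (n + 1)) ^ 2 ≤
      𝒮.h (𝒮.pw V n) (𝒮.pw V n) * 𝒮.h (𝒮.pw V (n + 2)) (𝒮.pw V (n + 2)) := by
    intro n
    have h1 := hLOG 𝒮 V PUnit (fun _ => 1) (fun _ => V) n
    simp only [Finset.univ_unique, Finset.sum_singleton, one_mul, it_self] at h1
    exact h1
  have hup : ∀ n, 𝒮.h (𝒮.pw V n) (𝒮.pw V n) ≤ 𝒮.dim V ^ (2 * (n + 1)) := by
    intro n
    induction n with
    | zero => exact h_self_le 𝒮 V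
    | succ n ih =>
      have h1 := (hSCF 𝒮 V PUnit (fun _ => 1) (fun _ => 𝒮.pw V n)).1
      simp only [Finset.univ_unique, Finset.sum_singleton, one_mul] at h1
      calc 𝒮.h (𝒮.pw V (n + 1)) (𝒮.pw V (n + 1)) ≤
          𝒮.dim V ^ 2 * 𝒮.h (𝒮.pw V n) (𝒮.pw V n) := h1
        _ ≤ 𝒮.dim V ^ 2 * 𝒮.dim V ^ (2 * (n + 1)) := Nat.mul_le_mul_left _ ih
        _ = 𝒮.dim V ^ (2 * (n + 1 + 1)) := by rw [← pow_add]; congr 1; ring
  obtain ⟨c, hc, hfin⟩ := L7h97.RL.s_NUM (fun n => 𝒮.h (𝒮.pw V n) (𝒮.pw V n))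
    (fun n => τ (O n)) (fun n => (τ (𝒮.wq (O κ) n) : ℝ))
    (𝒮.dim V) (𝒮.dim (O κ)) κ e C hV hpos hC hz hα hlc hup hgr hE (by
      intro M n β hβ hβ0
      set β' : ℤ := 𝒮.dim (O κ) ^ 2 * 𝒮.h (𝒮.pw V M) (𝒮.pw V M) -
        (𝒮.dim V ^ (4 * (κ + 1)) * 𝒮.h (𝒮.pw V M) (𝒮.pw V M) -
          𝒮.h (𝒮.pw V (M + (2 * κ + 2))) (𝒮.pw V (M + (2 * κ + 2)))) with hβ'
      have h1 : β = (β' : ℝ) := by
        rw [hβ, hβ']
        push_cast
        rfl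
      have h2 : 0 ≤ β' := by
        rw [h1] at hβ0
        exact_mod_cast hβ0
      have h3 := hLOT 𝒮 T hT V O R hs τ hτ κ M n β' hβ' h2
      rw [h1]
      exact_mod_cast h3)
  exact ⟨c, hc, fun n => hfin n⟩

/-! ### The system of the idempotent correspondences -/

open Pool.Agent.H914 Pool.Agent.H447 Pool.Agent.W534 VarClass Obj WeilCohomology Module
open Pool.Agent.Y163

variable {k : Type u} [Field k] {𝒱 : VarClass k} {ops : CycleOps 𝒱}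
  {W : WeilCohomology.{u, v} ops} {X Y Z : 𝒱.Obj} {p : ℕ}

/-- The system of the idempotent correspondences. -/
noncomputable def gsys (W : WeilCohomology.{u, v} ops) (hK : IsAlgClosed W.K)
    (hpar : AllPar W) : Sys (GOb W) where
  h := gh
  dim := gdim
  ten := gten
  dual := gdual
  h_symm := s_sym
  adj := s_adj
  comm := s_com
  assoc := s_ass
  dual_dual A B := by rw [s_dua.1]
  dual_h := s_dua.2.1
  dual_ten A B C := by rw [s_dua.2.2]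
  dim_ten A B := finrank_range_extOp _ _
  dim_dual A := finrank_range_adj _
  tri := L7h26.RL.s_TRI gh gdim gten gdual s_sym s_adj s_com
    (fun A B => finrank_range_extOp _ _) (s_dec hK hpar)
  dec := s_dec hK hpar

lemma isGeo_gsys (hK : IsAlgClosed W.K) (hpar : AllPar W) : IsGeo (gsys W hK hpar) :=
  ⟨fun _ _ => rfl, fun _ => rfl, fun _ _ => rfl, fun _ => rfl⟩

lemma gten_gone (Y Z : 𝒱.Obj) : gten (gone W Y) (gone W Z) = gone W (Y.prod Z) :=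
  GOb.ext' (A := gten (gone W Y) (gone W Z)) (B := gone W (Y.prod Z)) rfl
    (heq_of_eq extOp_one)

lemma gdual_gone (Y : 𝒱.Obj) : gdual (gone W Y) = gone W Y :=
  GOb.ext' (A := gdual (gone W Y)) (B := gone W Y) rfl (heq_of_eq adj_one)

lemma pw_gone {𝒮 : Sys (GOb W)} (h𝒮 : IsGeo 𝒮) (X : 𝒱.Obj) (n : ℕ) :
    𝒮.pw (gone W X) n = gone W (Y163.pw X n) := by
  induction n with
  | zero => rfl
  | succ n ih => rw [Sys.pw, ih, h𝒮.ten_eq, gten_gone]; rfl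

lemma wq_gone {𝒮 : Sys (GOb W)} (h𝒮 : IsGeo 𝒮) (X : 𝒱.Obj) (n : ℕ) :
    𝒮.wq (gone W X) n = gone W (Y163.sq X n) := by
  rw [Sys.wq, pw_gone h𝒮, h𝒮.ten_eq, h𝒮.dual_eq, gdual_gone, gten_gone]; rfl

lemma gh_gone (U : 𝒱.Obj) : gh (gone W U) (gone W U) = kRank W (U.prod U) U.dim U.dim := by
  change (if (U.dim + U.dim) % 2 = 0 then rk W (U.prod U) ((U.dim + U.dim) / 2)
    ((U.dim + U.dim) / 2) (extOp W (adj (1 : Module.End W.K (W.H U)))
      (1 : Module.End W.K (W.H U))) else 0) = _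
  rw [adj_one, extOp_one, rk_one, if_pos (by omega), show (U.dim + U.dim) / 2 = U.dim by omega]

lemma h_pw_gone {𝒮 : Sys (GOb W)} (h𝒮 : IsGeo 𝒮) (hpar : AllPar W) (X : 𝒱.Obj) (n : ℕ) :
    𝒮.h (𝒮.pw (gone W X) n) (𝒮.pw (gone W X) n) = mrank W X n := by
  rw [pw_gone h𝒮, h𝒮.h_eq, gh_gone, kRank_self (hpar _), ← mrank_eq_nu (hpar X)]

lemma gdim_gone (X : 𝒱.Obj) : gdim (gone W X) = finrank W.K (W.H X) := by
  have h2 : (gone W X).e = 1 := rfl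
  rw [gdim, h2, Module.End.one_eq_id, LinearMap.range_id, finrank_top]
  rfl

/-! ### Tate classes -/

lemma tsub_le_genU (Φ : FrobSystem W p) (Z : 𝒱.Obj) (j : ℕ) : tsub Φ Z j ≤ genU Φ Z j := by
  rw [tsub, Submodule.span_le]
  intro c hc
  obtain ⟨s, hs, hc'⟩ := IsTate.mem Φ hc
  exact (mem_genU Φ).2 ⟨s, hs, hc'⟩

lemma span_le_tsub (Φ : FrobSystem W p) (Z : 𝒱.Obj) (j : ℕ) : spanCycles W Z j ≤ tsub Φ Z j := by
  intro c hc
  obtain ⟨t, ht, h⟩ := exists_span_eig Φ Z j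
  refine Submodule.subset_span ⟨span_gr hc, t, ht, ?_⟩
  have h1 := h c hc
  rw [card_pow] at h1
  exact h1

/-- **The root law.** -/
theorem root_law (hp : 1 < p) (hK : IsAlgClosed W.K) (Φ : FrobSystem W p) (σ : W.K →+* ℂ)
    (hRH : ∀ Z : 𝒱.Obj, RiemannHyp Φ σ Z) (hX : 0 < finrank W.K (W.H X))
    (hGRD : S_GRD Φ σ) (hSPC : S_SPC Φ σ) (hTAU : S_TAU Φ σ) (hTNS : S_TNS Φ σ)
    (hLOT : S_LOT.{max (u + 1) v}) :
    (∃ N : ℕ, ∀ n,
      finrank W.K (tsub Φ (sq X n) ((n + 1) * X.dim)) =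
        finrank W.K (genU Φ (sq X n) ((n + 1) * X.dim)) ∧
      finrank W.K (genU Φ (sq X n) ((n + 1) * X.dim)) ≤ N * mrank W X n) ∨
    ∃ c : ℝ, 0 < c ∧ ∀ n : ℕ, c * √((n + 1) / Real.log (n + 2)) * mrank W X n ≤
      finrank W.K (tsub Φ (sq X n) ((n + 1) * X.dim)) := by
  have hpar : AllPar W := fun Z => par_mem_of_RH Φ hp σ (hRH Z)
  have h𝒮 := isGeo_gsys hK hpar
  set 𝒮 := gsys W hK hpar with h𝒮def
  have hPRJ : S_PRJ Φ σ := L7h89.RL.s_PRJ Φ σ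
  have hT : 𝒮.IsStable (GT Φ) := L7h73.RL.s_STA Φ σ hPRJ hp hK hRH 𝒮 h𝒮
  have hdim : ∀ n, (sq X n).dim = 2 * ((n + 1) * X.dim) := by
    intro n
    rw [dim_sq]
  have hproj : ∀ n, ∃ A : GOb W, A.Z = sq X n ∧ 𝒮.IsSplit (GT Φ) (𝒮.wq (gone W X) n) A
      (gcompl A) ∧ gdim A = finrank W.K (genU Φ (sq X n) ((n + 1) * X.dim)) ∧
      gtau Φ A = finrank W.K (tsub Φ (sq X n) ((n + 1) * X.dim)) := by
    intro n
    obtain ⟨π, hπ, hππ, hr, -, -⟩ := hPRJ hp hK hRH (sq X n) _ (hdim n)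
    refine ⟨⟨sq X n, π, hπ, hππ⟩, rfl, ?_, ?_, ?_⟩
    · rw [wq_gone h𝒮]
      exact hSPC hp hK hRH 𝒮 h𝒮 ⟨sq X n, π, hπ, hππ⟩ _ (hdim n) hr
    · change finrank W.K (LinearMap.range π) = _
      rw [hr]
    · change finrank W.K (tsub Φ (sq X n) ((sq X n).dim / 2) ⊓ LinearMap.range π :
        Submodule W.K (W.H (sq X n))) = _
      rw [hr, hdim, Nat.mul_div_cancel_left _ (by norm_num : 0 < 2),
        inf_eq_left.2 (tsub_le_genU Φ _ _)]
  choose O hOZ hs hOd hOt using hproj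
  have hV : 0 < 𝒮.dim (gone W X) := by
    change 0 < gdim (gone W X)
    rw [gdim_gone]; exact hX
  have hgr : ∀ n, 𝒮.dim (gone W X) ^ (2 * (n + 1)) ≤
      𝒮.h (𝒮.pw (gone W X) n) (𝒮.pw (gone W X) n) * (n + 2) ^ (finrank W.K (W.H X) ^ 2) := by
    intro n
    rw [h_pw_gone h𝒮 hpar]
    have h1 := mrank_growth (W := W) (X := X) (hpar X) n
    change gdim (gone W X) ^ (2 * (n + 1)) ≤ _
    rw [gdim_gone, pow_mul]
    exact h1
  by_cases hss : ∀ n, gtau Φ (O n) = gdim (O n)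
  · obtain ⟨Λ, _, U, g, hg⟩ := hGRD hp hK hRH 𝒮 h𝒮 X
    rcases s_ABS L7h32.RL.s_GEN 𝒮 (GT Φ) hT (gone W X) O (fun n => gcompl (O n)) hV hs Λ U _ g hg
      _ hgr with ⟨N, hN⟩ | ⟨c, hc, h⟩
    · left
      refine ⟨N, fun n => ⟨?_, ?_⟩⟩
      · rw [← hOt, ← hOd, hss]
      · have h1 := hN n
        rw [h_pw_gone h𝒮 hpar] at h1
        rw [← hOd]
        exact h1
    · right
      refine ⟨c, hc, fun n => ?_⟩
      have h1 := h n
      rw [h_pw_gone h𝒮 hpar] at h1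
      rw [← hOt, hss]
      exact h1
  · right
    push Not at hss
    obtain ⟨κ, hκ⟩ := hss
    have hle : gtau Φ (O κ) ≤ gdim (O κ) := Submodule.finrank_mono inf_le_right
    have hlt : gtau Φ (O κ) < gdim (O κ) := lt_of_le_of_ne hle hκ
    obtain ⟨C, hC, hE⟩ := hTNS hp hK hRH 𝒮 h𝒮 (O κ) (hs κ).mem hlt
    obtain ⟨c, hc, h⟩ := s_ABT hLOT 𝒮 (GT Φ) hT (gone W X) O (fun n => gcompl (O n)) hV hs
      (gtau Φ) (hTAU hp hK hRH) κ C (by
        change 0 < gdim (O κ)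
        omega) hC hE _ hgr
    refine ⟨c, hc, fun n => ?_⟩
    have h1 := h n
    rw [h_pw_gone h𝒮 hpar] at h1
    rw [← hOt]
    exact h1

end Pool.Agent.L7h85.RL
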