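import Pool.Agent.L7h89.RL.Spl
import Pool.Agent.L7h85.RL.G1
import Pool.Agent.L7h85.RL.Geo2

/-!
# The splitting given by a projector onto the generalised Tate classes
-/

set_option linter.unusedVariables false
set_option linter.unusedSectionVars false

open CategoryTheory AlgebraicGeometry CategoryTheory.Limits

universe u v

namespace Pool.Agent.L7h85.RL

open Pool.Agent.H914 Pool.Agent.H447 Pool.Agent.W534 VarClass Obj WeilCohomology Module
open Pool.Agent.Y163 Pool.Agent.L7h89.RL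

variable {k : Type u} [Field k] {𝒱 : VarClass k} {ops : CycleOps 𝒱}
  {W : WeilCohomology.{u, v} ops} {p : ℕ}

theorem s_spc (Φ : FrobSystem W p) (σ : W.K →+* ℂ) : S_SPC Φ σ := by
  intro hp hK hRH 𝒮 hG A q hq hr
  have hpar := L7h89.RL.allPar Φ hp hK σ hRH
  obtain ⟨Z, π, hπm, hπi⟩ := A
  change Z.dim = 2 * q at hq
  change LinearMap.range π = genU Φ Z q at hr
  have h12 : π * (1 - π) = 0 := by rw [mul_sub, mul_one, hπi, sub_self]
  have h21 : (1 - π) * π = 0 := by rw [sub_mul, one_mul, hπi, sub_self]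
  have m2 : (1 - π) ∈ KOp W Z Z 0 := (KAlg W Z).sub_mem (KAlg W Z).one_mem hπm
  have i2 : (1 - π) * (1 - π) = 1 - π := by rw [sub_mul, one_mul, h12, sub_zero]
  have hπx : ∀ x ∈ genU Φ Z q, (1 - π) x = 0 := by
    intro x hx
    rw [← hr] at hx
    obtain ⟨y, rfl⟩ := hx
    rw [← Module.End.mul_apply, h21, LinearMap.zero_apply]
  have hc : gcompl (⟨Z, π, hπm, hπi⟩ : GOb W) = ⟨Z, 1 - π, m2, i2⟩ := rfl
  rw [hc]
  change 𝒮.IsSplit (GT Φ) (gone W Z) ⟨Z, π, hπm, hπi⟩ ⟨Z, 1 - π, m2, i2⟩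
  refine ⟨⟨q, hq, hr.le⟩, ?_, ?_, ?_⟩
  · intro C
    rw [hG.h_eq, hG.h_eq, hG.h_eq]
    exact gh_add s_mu hpar hπm m2 hπi i2 h12 h21 (gone W Z) rfl C (by
      simp only [gone]
      abel)
  · rw [hG.dim_eq, hG.dim_eq, hG.dim_eq]
    have h := finrank_split π hπi ⊤ (fun _ _ => trivial)
    rw [Submodule.map_top, Submodule.map_top] at h
    have h2 : gdim (gone W Z) = finrank W.K (⊤ : Submodule W.K (W.H Z)) := by
      have : LinearMap.range (1 : Module.End W.K (W.H Z)) = ⊤ := LinearMap.range_id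
      rw [← this]
      rfl
    rw [h2, h]
    rfl
  · intro S _ hS
    rw [hG.h_eq]
    exact gh_zero Φ s_mu hpar hq m2 i2 hπx hS

end Pool.Agent.L7h85.RL
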