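import Pool.Agent.L7h85.RL.Asm
import Pool.Agent.L7h85.RL.Spc
import Pool.Agent.L7h73.RL.Tau
import Pool.Agent.L7h73.RL.Nsx
import Pool.Agent.L7h73.RL.Nse
import Pool.Agent.L7h65.RL.Blt
import Pool.Agent.L7h97.RL.Los
import Pool.Agent.L7h97.RL.Nug
import Pool.Agent.L7h32.RL.Ker

/-!
# The growth of the pole orders if the Frobenius endomorphism is not semisimple
-/

set_option linter.unusedVariables false
set_option linter.unusedSectionVars false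

open CategoryTheory AlgebraicGeometry CategoryTheory.Limits

universe u v w

namespace Pool.Agent.L7h85.RL

section Abs

variable {Ob : Type w} (𝒮 : Sys Ob) {T : Ob → Prop} {V : Ob} {O R : ℕ → Ob}

lemma pw_hyps (hV : 0 < 𝒮.dim V) {e : ℕ}
    (hgr : ∀ n, 𝒮.dim V ^ (2 * (n + 1)) ≤ 𝒮.h (𝒮.pw V n) (𝒮.pw V n) * (n + 2) ^ e) :
    (∀ n, 0 < 𝒮.h (𝒮.pw V n) (𝒮.pw V n)) ∧
    (∀ n, 𝒮.h (𝒮.pw V (n + 1)) (𝒮.pw V (n + 1)) ^ 2 ≤
      𝒮.h (𝒮.pw V n) (𝒮.pw V n) * 𝒮.h (𝒮.pw V (n + 2)) (𝒮.pw V (n + 2))) ∧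
    ∀ n, 𝒮.h (𝒮.pw V n) (𝒮.pw V n) ≤ 𝒮.dim V ^ (2 * (n + 1)) := by
  have hREP : S_REP.{w} := L7h26.RL.s_REP
  have hSCF : S_SCF.{w} := L7h73.RL.s_SCF hREP
  have hLOG : S_LOG.{w} := L7h26.RL.s_LOG
  refine ⟨fun n => ?_, fun n => ?_, fun n => ?_⟩
  · apply Nat.pos_of_ne_zero
    intro h0
    have h1 := hgr n
    rw [h0, zero_mul] at h1
    have h2 : 0 < 𝒮.dim V ^ (2 * (n + 1)) := pow_pos hV _
    omega
  · have h1 := hLOG 𝒮 V PUnit (fun _ => 1) (fun _ => V) n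
    simp only [Finset.univ_unique, Finset.sum_singleton, one_mul, it_self] at h1
    exact h1
  · induction n with
    | zero => exact h_self_le 𝒮 V
    | succ n ih =>
      have h1 := (hSCF 𝒮 V PUnit (fun _ => 1) (fun _ => 𝒮.pw V n)).1
      simp only [Finset.univ_unique, Finset.sum_singleton, one_mul] at h1
      calc 𝒮.h (𝒮.pw V (n + 1)) (𝒮.pw V (n + 1)) ≤
          𝒮.dim V ^ 2 * 𝒮.h (𝒮.pw V n) (𝒮.pw V n) := h1
        _ ≤ 𝒮.dim V ^ 2 * 𝒮.dim V ^ (2 * (n + 1)) := Nat.mul_le_mul_left _ ih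
        _ = 𝒮.dim V ^ (2 * (n + 1 + 1)) := by rw [← pow_add]; congr 1; ring

variable (hT : 𝒮.IsStable T) (hV : 0 < 𝒮.dim V)
  (hs : ∀ n, 𝒮.IsSplit T (𝒮.wq V n) (O n) (R n)) {e κ : ℕ}
  (hgr : ∀ n, 𝒮.dim V ^ (2 * (n + 1)) ≤ 𝒮.h (𝒮.pw V n) (𝒮.pw V n) * (n + 2) ^ e)
  (hpos : 0 < 𝒮.dim (O κ))

include hT hV hs hgr hpos

/-- The growth of the dimensions. -/
theorem growth_dim {γ C : ℝ} (hγ : 0 ≤ γ) (hC : 0 < C)
    (hE : ∀ n : ℕ, (𝒮.h (𝒮.pw (O κ) n) (𝒮.pw (O κ) n) : ℝ) ≤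
      C * (𝒮.dim (O κ) : ℝ) ^ (2 * (n + 1)) / ((n : ℝ) + 1) ^ γ) :
    ∃ c : ℝ, 0 < c ∧ ∀ n : ℕ, c * (((n : ℝ) + 1) / Real.log (n + 2)) ^ γ *
      𝒮.h (𝒮.pw V n) (𝒮.pw V n) ≤ 𝒮.dim (O n) := by
  have hLOW : S_LOW.{w} := L7h32.RL.s_LOW L7h26.RL.s_LOG (L7h73.RL.s_SCH L7h26.RL.s_REP)
  have hPOS : S_POS.{w} := L7h32.RL.s_POS
  obtain ⟨hα, hlc, hup⟩ := pw_hyps 𝒮 hV hgr
  have hz : ∀ n, 0 < 𝒮.dim (O n) := fun n => hPOS 𝒮 T hT V O R hV hs κ n hpos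
  refine L7h97.RL.s_NUG (fun n => 𝒮.h (𝒮.pw V n) (𝒮.pw V n))
    (fun n => 𝒮.dim (O n)) (fun n => (𝒮.h (𝒮.pw (O κ) n) (𝒮.pw (O κ) n) : ℝ))
    (𝒮.dim V) (𝒮.dim (O κ)) κ e C γ hV hpos hC hγ hz hα hlc hup hgr hE ?_
  intro M n β hβ hβ0
  set β' : ℤ := 𝒮.dim (O κ) ^ 2 * 𝒮.h (𝒮.pw V M) (𝒮.pw V M) -
    (𝒮.dim V ^ (4 * (κ + 1)) * 𝒮.h (𝒮.pw V M) (𝒮.pw V M) -
      𝒮.h (𝒮.pw V (M + (2 * κ + 2))) (𝒮.pw V (M + (2 * κ + 2)))) with hβ'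
  have h1 : β = (β' : ℝ) := by
    rw [hβ, hβ']
    push_cast
    rfl
  have h2 : 0 ≤ β' := by
    rw [h1] at hβ0
    exact_mod_cast hβ0
  have h3 := hLOW 𝒮 T hT V O R hs κ M n β' hβ' h2
  rw [h1]
  exact_mod_cast h3

/-- The growth of a function which is at least the length. -/
theorem growth_tau {γ C : ℝ} (hγ : 0 ≤ γ) (hC : 0 < C) (τ : Ob → ℕ)
    (hτ : ∀ A, T A → ∃ D : Dec 𝒮.h 𝒮.dim A, ∑ c, D.m c ≤ τ A)
    (hE : ∀ (n : ℕ) (S : Ob), 𝒮.h S S = 1 → (𝒮.h S (𝒮.wq (O κ) n) : ℝ) ≤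
      C * (𝒮.dim (O κ) : ℝ) ^ (2 * (n + 1)) / ((n : ℝ) + 1) ^ γ) :
    ∃ c : ℝ, 0 < c ∧ ∀ n : ℕ, c * (((n : ℝ) + 1) / Real.log (n + 2)) ^ γ *
      𝒮.h (𝒮.pw V n) (𝒮.pw V n) ≤ τ (O n) := by
  have hLOS : S_LOS.{w} := L7h97.RL.s_LOS L7h26.RL.s_LOG (L7h73.RL.s_SCH L7h26.RL.s_REP)
  have hPOS : S_POS.{w} := L7h32.RL.s_POS
  obtain ⟨hα, hlc, hup⟩ := pw_hyps 𝒮 hV hgr
  have hz : ∀ n, 0 < τ (O n) := by
    intro n
    have h1 := hPOS 𝒮 T hT V O R hV hs κ n hpos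
    obtain ⟨D, hD⟩ := hτ (O n) (hs n).mem
    refine lt_of_lt_of_le ?_ hD
    rw [D.dim_eq] at h1
    obtain ⟨c, -, hc⟩ := Finset.exists_ne_zero_of_sum_ne_zero h1.ne'
    exact Finset.sum_pos' (fun _ _ => Nat.zero_le _) ⟨c, Finset.mem_univ _, D.m_pos c⟩
  set H : ℕ → ℕ := fun n => ⌊C * (𝒮.dim (O κ) : ℝ) ^ (2 * (n + 1)) / ((n : ℝ) + 1) ^ γ⌋₊ with hH
  refine L7h97.RL.s_NUG (fun n => 𝒮.h (𝒮.pw V n) (𝒮.pw V n))
    (fun n => τ (O n)) (fun n => (H n : ℝ))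
    (𝒮.dim V) (𝒮.dim (O κ)) κ e C γ hV hpos hC hγ hz hα hlc hup hgr
    (fun n => Nat.floor_le (by positivity)) ?_
  intro M n β hβ hβ0
  set β' : ℤ := 𝒮.dim (O κ) ^ 2 * 𝒮.h (𝒮.pw V M) (𝒮.pw V M) -
    (𝒮.dim V ^ (4 * (κ + 1)) * 𝒮.h (𝒮.pw V M) (𝒮.pw V M) -
      𝒮.h (𝒮.pw V (M + (2 * κ + 2))) (𝒮.pw V (M + (2 * κ + 2)))) with hβ'
  have h1 : β = (β' : ℝ) := by
    rw [hβ, hβ']
    push_cast
    rfl
  have h2 : 0 ≤ β' := by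
    rw [h1] at hβ0
    exact_mod_cast hβ0
  have h3 := hLOS 𝒮 T hT V O R hs τ hτ κ M n β' (H n)
    (fun S hS => Nat.le_floor (hE n S hS)) hβ' h2
  rw [h1]
  exact_mod_cast h3

end Abs

open Pool.Agent.H914 Pool.Agent.H447 Pool.Agent.W534 VarClass Obj WeilCohomology Module
open Pool.Agent.Y163

variable {k : Type u} [Field k] {𝒱 : VarClass k} {ops : CycleOps 𝒱}
  {W : WeilCohomology.{u, v} ops} {X Y Z : 𝒱.Obj} {p : ℕ}

/-- **The growth of the orders of the poles and of the numbers of Tate classes, if the Frobenius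
endomorphism is not semisimple.** -/
theorem nonsemisimple_growth (hp : 1 < p) (hK : IsAlgClosed W.K) (Φ : FrobSystem W p)
    (σ : W.K →+* ℂ) (hRH : ∀ Z : 𝒱.Obj, RiemannHyp Φ σ Z)
    (κ : ℕ) (hns : ¬ Module.End.IsSemisimple (M := W.H (pw X κ))
      (W.map (Φ.Fr (pw X κ))).toLinearMap) :
    0 < finrank W.K (W.H X) ∧ ∃ c : ℝ, 0 < c ∧ ∀ n : ℕ,
      c * (((n : ℝ) + 1) / Real.log (n + 2)) ^ (3 / 2 : ℝ) * mrank W X n ≤
        finrank W.K (genU Φ (sq X n) ((n + 1) * X.dim)) ∧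
      c * (((n : ℝ) + 1) / Real.log (n + 2)) * mrank W X n ≤
        finrank W.K (tsub Φ (sq X n) ((n + 1) * X.dim)) := by
  have hpar : AllPar W := fun Z => par_mem_of_RH Φ hp σ (hRH Z)
  have hX : 0 < finrank W.K (W.H X) := by
    apply Nat.pos_of_ne_zero
    intro h0
    apply hns
    have h1 : Subsingleton (W.H (pw X κ)) := by
      suffices hz : finrank W.K (W.H (pw X κ)) = 0 from Module.finrank_zero_iff.1 hz
      have h2 := Y163.finrank_range_extOp (W := W) (1 : Module.End W.K (W.H X))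
        (1 : Module.End W.K (W.H X))
      clear hns
      induction κ with
      | zero => exact h0
      | succ κ ih =>
        have h3 := Y163.finrank_range_extOp (W := W) (1 : Module.End W.K (W.H X))
          (1 : Module.End W.K (W.H (pw X κ)))
        rw [extOp_one, Module.End.one_eq_id, LinearMap.range_id, finrank_top,
          Module.End.one_eq_id, LinearMap.range_id, finrank_top, h0, zero_mul] at h3
        exact h3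
    rw [Module.End.isSemisimple_iff]
    intro p hp
    refine ⟨p, hp, ?_⟩
    exact ⟨by rw [disjoint_iff]; exact Submodule.eq_bot_of_subsingleton,
      by rw [codisjoint_iff, Submodule.eq_bot_of_subsingleton
           (p := (⊤ : Submodule W.K (W.H (pw X κ))))]
         exact Submodule.eq_bot_of_subsingleton⟩
  refine ⟨hX, ?_⟩
  have h𝒮 := isGeo_gsys hK hpar
  set 𝒮 := gsys W hK hpar with h𝒮def
  have hPRJ : S_PRJ Φ σ := L7h89.RL.s_PRJ Φ σ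
  have hT : 𝒮.IsStable (GT Φ) := L7h73.RL.s_STA Φ σ hPRJ hp hK hRH 𝒮 h𝒮
  have hSPC : S_SPC Φ σ := s_spc Φ σ
  have hdim : ∀ n, (sq X n).dim = 2 * ((n + 1) * X.dim) := by
    intro n
    rw [dim_sq]
  have hproj : ∀ n, ∃ A : GOb W, A.Z = sq X n ∧ 𝒮.IsSplit (GT Φ) (𝒮.wq (gone W X) n) A
      (gcompl A) ∧ gdim A = finrank W.K (genU Φ (sq X n) ((n + 1) * X.dim)) ∧
      gtau Φ A = finrank W.K (tsub Φ (sq X n) ((n + 1) * X.dim)) := by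
    intro n
    obtain ⟨π, hπ, hππ, hr, -, -⟩ := hPRJ hp hK hRH (sq X n) _ (hdim n)
    refine ⟨⟨sq X n, π, hπ, hππ⟩, rfl, ?_, ?_, ?_⟩
    · rw [wq_gone h𝒮]
      exact hSPC hp hK hRH 𝒮 h𝒮 ⟨sq X n, π, hπ, hππ⟩ _ (hdim n) hr
    · change finrank W.K (LinearMap.range π) = _
      rw [hr]
    · change finrank W.K (tsub Φ (sq X n) ((sq X n).dim / 2) ⊓ LinearMap.range π :
        Submodule W.K (W.H (sq X n))) = _
      rw [hr, hdim, Nat.mul_div_cancel_left _ (by norm_num : 0 < 2),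
        inf_eq_left.2 (tsub_le_genU Φ _ _)]
  choose O hOZ hs hOd hOt using hproj
  have hV : 0 < 𝒮.dim (gone W X) := by
    change 0 < gdim (gone W X)
    rw [gdim_gone]; exact hX
  have hgr : ∀ n, 𝒮.dim (gone W X) ^ (2 * (n + 1)) ≤
      𝒮.h (𝒮.pw (gone W X) n) (𝒮.pw (gone W X) n) * (n + 2) ^ (finrank W.K (W.H X) ^ 2) := by
    intro n
    rw [h_pw_gone h𝒮 hpar]
    have h1 := mrank_growth (W := W) (X := X) (hpar X) n
    change gdim (gone W X) ^ (2 * (n + 1)) ≤ _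
    rw [gdim_gone, pow_mul]
    exact h1
  have hlt : gtau Φ (O κ) < gdim (O κ) := by
    rw [hOd, hOt]
    have h1 := L7h73.RL.s_NSX Φ σ hp hK hRH (pw X κ) hns
    have h2 := Submodule.finrank_lt_finrank_of_lt h1
    have h3 : (pw X κ).dim = (κ + 1) * X.dim := dim_pw _ _
    rw [h3] at h2
    exact h2
  have hpos : 0 < 𝒮.dim (O κ) := by
    change 0 < gdim (O κ)
    omega
  have hBLK : S_BLK.{v, v} := L7h65.RL.s_BLK
  have hBLT : S_BLT.{v, v} := L7h65.RL.s_BLT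
  have hKER : S_KER.{v, v} := L7h32.RL.s_KER
  obtain ⟨C₁, hC₁, hE₁⟩ := L7h73.RL.s_NSE Φ hBLK hKER σ hp hK hRH 𝒮 h𝒮 (O κ) (hs κ).mem hlt
  obtain ⟨C₂, hC₂, hE₂⟩ := L7h73.RL.s_NSM Φ hBLK hBLT σ hp hK hRH 𝒮 h𝒮 (O κ) (hs κ).mem hlt
  obtain ⟨c₁, hc₁, h₁⟩ := growth_dim 𝒮 hT hV hs hgr hpos (γ := 3 / 2) (by norm_num) hC₁ hE₁
  obtain ⟨c₂, hc₂, h₂⟩ := growth_tau 𝒮 hT hV hs hgr hpos (γ := 1) (by norm_num) hC₂ (gtau Φ)
    (L7h73.RL.s_TAU Φ σ hp hK hRH) (fun n S hS => by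
      rw [Real.rpow_one]
      exact hE₂ n S hS)
  refine ⟨min c₁ c₂, lt_min hc₁ hc₂, fun n => ⟨?_, ?_⟩⟩
  · have e1 := h₁ n
    rw [h_pw_gone h𝒮 hpar] at e1
    rw [← hOd]
    refine le_trans ?_ e1
    have hlog : 0 ≤ Real.log ((n : ℝ) + 2) := Real.log_nonneg (by
      have : (0 : ℝ) ≤ n := Nat.cast_nonneg n
      linarith)
    gcongr
    exact min_le_left _ _
  · have e1 := h₂ n
    rw [h_pw_gone h𝒮 hpar, Real.rpow_one] at e1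
    rw [← hOt]
    refine le_trans ?_ e1
    have hlog : 0 ≤ Real.log ((n : ℝ) + 2) := Real.log_nonneg (by
      have : (0 : ℝ) ≤ n := Nat.cast_nonneg n
      linarith)
    gcongr
    exact min_le_right _ _

end Pool.Agent.L7h85.RL
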