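import Pool.Agent.L7h85.RL.Asm

/-!
# The root law with its limit
-/

set_option linter.unusedVariables false
set_option linter.unusedSectionVars false

open CategoryTheory AlgebraicGeometry CategoryTheory.Limits Filter Topology

universe u v w

namespace Pool.Agent.L7h85.RL

open Pool.Agent.H914 Pool.Agent.H447 Pool.Agent.W534 VarClass Obj WeilCohomology Module
open Pool.Agent.Y163

variable {k : Type u} [Field k] {𝒱 : VarClass k} {ops : CycleOps 𝒱}
  {W : WeilCohomology.{u, v} ops} {X Y Z : 𝒱.Obj} {p : ℕ}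

/-- **The root law, with the limit of the ratio.** -/
theorem root_law' (hp : 1 < p) (hK : IsAlgClosed W.K) (Φ : FrobSystem W p) (σ : W.K →+* ℂ)
    (hRH : ∀ Z : 𝒱.Obj, RiemannHyp Φ σ Z) (hX : 0 < finrank W.K (W.H X))
    (hmain : (∃ N : ℕ, ∀ n,
      finrank W.K (tsub Φ (sq X n) ((n + 1) * X.dim)) =
        finrank W.K (genU Φ (sq X n) ((n + 1) * X.dim)) ∧
      finrank W.K (genU Φ (sq X n) ((n + 1) * X.dim)) ≤ N * mrank W X n) ∨
      ∃ c : ℝ, 0 < c ∧ ∀ n : ℕ, c * √((n + 1) / Real.log (n + 2)) * mrank W X n ≤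
        finrank W.K (tsub Φ (sq X n) ((n + 1) * X.dim))) :
    ∃ t z r : ℕ → ℕ,
      (∀ n, t n = finrank W.K (tsub Φ (sq X n) ((n + 1) * X.dim))) ∧
      (∀ n, PoleOrderIs Φ σ (sq X n) ((n + 1) * X.dim) (z n)) ∧
      (∀ n, r n = numRank ops (sq X n) ((n + 1) * X.dim)) ∧
      (∀ n, 0 < r n ∧ r n ≤ t n ∧ t n ≤ z n) ∧
      ((∃ N : ℕ, 0 < N ∧ (∀ n, t n = z n ∧ z n ≤ N * r n) ∧
        Tendsto (fun n => (z n : ℝ) / r n) atTop (𝓝 N)) ∨
      ∃ c : ℝ, 0 < c ∧ ∀ n : ℕ, c * √((n + 1) / Real.log (n + 2)) * r n ≤ t n) := by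
  have hpar : par (W.isInternal X) ∈ KOp W X X 0 := par_mem_of_RH Φ hp σ (hRH X)
  have hpos : ∀ n, 0 < mrank W X n := by
    intro n
    have h1 := mrank_growth hpar n
    apply Nat.pos_of_ne_zero
    intro h0
    rw [h0, zero_mul] at h1
    have h2 : 0 < (finrank W.K (W.H X) ^ 2) ^ (n + 1) := by positivity
    omega
  have hle1 : ∀ n, mrank W X n ≤ finrank W.K (tsub Φ (sq X n) ((n + 1) * X.dim)) := fun n =>
    (kRank_le _ _).trans (Submodule.finrank_mono (span_le_tsub Φ _ _))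
  have hle2 : ∀ n, finrank W.K (tsub Φ (sq X n) ((n + 1) * X.dim)) ≤
      finrank W.K (genU Φ (sq X n) ((n + 1) * X.dim)) := fun n =>
    Submodule.finrank_mono (tsub_le_genU Φ _ _)
  refine ⟨fun n => finrank W.K (tsub Φ (sq X n) ((n + 1) * X.dim)),
    fun n => finrank W.K (genU Φ (sq X n) ((n + 1) * X.dim)), mrank W X, fun _ => rfl,
    fun n => poleOrderIs hp (hRH _) (by rw [dim_sq]; omega), fun n => (numRank_sq X n).symm,
    fun n => ⟨hpos n, hle1 n, hle2 n⟩, ?_⟩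
  rcases hmain with ⟨N, hN⟩ | h
  · left
    rcases Y163.index_law hpar hX (fun n => genU Φ (sq X n) ((n + 1) * X.dim))
      ((genFam Φ).stable_sq X) with ⟨d, hd1, hd2⟩ | h
    · refine ⟨d, ?_, fun n => ⟨(hN n).1, hd1 n⟩, hd2⟩
      apply Nat.pos_of_ne_zero
      intro h0
      have h1 := hd1 0
      rw [h0, zero_mul] at h1
      have h2 := hpos 0
      have h3 := (hle1 0).trans (hle2 0)
      omega
    · exfalso
      obtain ⟨n, hn⟩ := (h.eventually_gt_atTop (N : ℝ)).exists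
      have h1 := (hN n).2
      have h2 : (0 : ℝ) < mrank W X n := by exact_mod_cast hpos n
      rw [lt_div_iff₀ h2] at hn
      have h3 : ((finrank W.K (genU Φ (sq X n) ((n + 1) * X.dim)) : ℕ) : ℝ) ≤
          N * mrank W X n := by exact_mod_cast h1
      linarith
  · right
    exact h

end Pool.Agent.L7h85.RL
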