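import Pool.Agent.Y163.TateC
import Pool.Agent.L7h85.RL.Stm

/-!
# Idempotent correspondences as a system: definitions and statements
-/

set_option linter.unusedVariables false
set_option linter.unusedSectionVars false

open CategoryTheory AlgebraicGeometry CategoryTheory.Limits

universe u v

namespace Pool.Agent.L7h85.RL

open Pool.Agent.H914 Pool.Agent.H447 Pool.Agent.W534 VarClass Obj WeilCohomology Module
open Pool.Agent.Y163

variable {k : Type u} [Field k] {𝒱 : VarClass k} {ops : CycleOps 𝒱}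

/-- An idempotent algebraic correspondence of degree zero. -/
structure GOb (W : WeilCohomology.{u, v} ops) where
  /-- the variety -/
  Z : 𝒱.Obj
  /-- the idempotent -/
  e : Module.End W.K (W.H Z)
  mem : e ∈ KOp W Z Z 0
  idem : e * e = e

variable {W : WeilCohomology.{u, v} ops}

/-- The number of homomorphisms, in the sense of numerical equivalence. -/
noncomputable def gh (A B : GOb W) : ℕ :=
  if (A.Z.dim + B.Z.dim) % 2 = 0 then
    rk W (A.Z.prod B.Z) ((A.Z.dim + B.Z.dim) / 2) ((A.Z.dim + B.Z.dim) / 2)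
      (extOp W (adj A.e) B.e) else 0

/-- The dimension. -/
noncomputable def gdim (A : GOb W) : ℕ := finrank W.K (LinearMap.range A.e)

/-- The tensor product. -/
noncomputable def gten (A B : GOb W) : GOb W :=
  ⟨A.Z.prod B.Z, extOp W A.e B.e, KOp.cast (KOp.ext A.mem B.mem) (by ring), by
    rw [extOp_mul, A.idem, B.idem]⟩

/-- The dual. -/
noncomputable def gdual (A : GOb W) : GOb W :=
  ⟨A.Z, adj A.e, adj_mem A.mem, by rw [← adj_mul, A.idem]⟩

/-- The whole variety. -/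
noncomputable def gone (W : WeilCohomology.{u, v} ops) (X : 𝒱.Obj) : GOb W :=
  ⟨X, 1, (KAlg W X).one_mem, one_mul 1⟩

/-- A system given by idempotent correspondences. -/
structure IsGeo (𝒮 : Sys (GOb W)) : Prop where
  h_eq : ∀ A B, 𝒮.h A B = gh A B
  dim_eq : ∀ A, 𝒮.dim A = gdim A
  ten_eq : ∀ A B, 𝒮.ten A B = gten A B
  dual_eq : ∀ A, 𝒮.dual A = gdual A

/-- The parity operators are algebraic. -/
def AllPar (W : WeilCohomology.{u, v} ops) : Prop :=
  ∀ Z : 𝒱.Obj, par (W.isInternal Z) ∈ KOp W Z Z 0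

/-- The objects consisting of generalised Tate classes. -/
def GT {p : ℕ} (Φ : FrobSystem W p) (A : GOb W) : Prop :=
  ∃ q, A.Z.dim = 2 * q ∧ LinearMap.range A.e ≤ genU Φ A.Z q

/-! ### The statements -/

variable (W)

/-- [MU] The number of homomorphisms as a multiplicity of operators. -/
def S_MU : Prop := AllPar W → ∀ (A B : GOb W) (r : ℤ), (B.Z.dim : ℤ) = A.Z.dim + 2 * r →
  gh A B = mu (KOp W A.Z B.Z r) (KOp W B.Z A.Z (-r)) B.e A.e

/-- [ADX] The adjoint of an external product. -/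
def S_ADX : Prop := ∀ (Y Z : 𝒱.Obj) (f : Module.End W.K (W.H Y)) (g : Module.End W.K (W.H Z)),
  f ∈ KOp W Y Y 0 → g ∈ KOp W Z Z 0 → adj (extOp W f g) = extOp W (adj f) (adj g)

/-- [RKA] The rank of the adjoint twisted intersection form. -/
def S_RKA : Prop := ∀ (Z : 𝒱.Obj) (j : ℕ) (f : Module.End W.K (W.H Z)), f ∈ KOp W Z Z 0 →
  rk W Z j j (adj f) = rk W Z j j f

/-- [SYM] -/
def S_SYM : Prop := ∀ A B : GOb W, gh A B = gh B A

/-- [ADJ] -/
def S_ADJ : Prop := ∀ A B C : GOb W, gh (gten A B) C = gh A (gten C (gdual B))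

/-- [COM] -/
def S_COM : Prop := ∀ A B C : GOb W, gh (gten A B) C = gh (gten B A) C

/-- [ASS] -/
def S_ASS : Prop := ∀ A B C D : GOb W, gh (gten (gten A B) C) D = gh (gten A (gten B C)) D

/-- [DUA] -/
def S_DUA : Prop := (∀ A : GOb W, gdual (gdual A) = A) ∧
  (∀ A B : GOb W, gh (gdual A) (gdual B) = gh A B) ∧
  (∀ A B : GOb W, gdual (gten A B) = gten (gdual A) (gdual B))

/-- [DEC] The decomposition into simple objects. -/
def S_DEC : Prop := IsAlgClosed W.K → AllPar W → ∀ A : GOb W, Nonempty (Dec gh gdim A)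

variable {W}

/-- [PRJ] The spectral projector onto the generalised Tate classes in the middle degree. -/
def S_PRJ {p : ℕ} (Φ : FrobSystem W p) (σ : W.K →+* ℂ) : Prop := 1 < p → IsAlgClosed W.K →
  (∀ Z : 𝒱.Obj, RiemannHyp Φ σ Z) → ∀ (Z : 𝒱.Obj) (q : ℕ), Z.dim = 2 * q →
    ∃ π ∈ KOp W Z Z 0, π * π = π ∧ LinearMap.range π = genU Φ Z q ∧
      (∀ f ∈ KOp W Z Z 0, f * π = π * f) ∧ adj π = π

/-- [STA] The objects consisting of generalised Tate classes are stable. -/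
def S_STA {p : ℕ} (Φ : FrobSystem W p) (σ : W.K →+* ℂ) : Prop := 1 < p → IsAlgClosed W.K →
  (∀ Z : 𝒱.Obj, RiemannHyp Φ σ Z) → ∀ 𝒮 : Sys (GOb W), IsGeo 𝒮 → 𝒮.IsStable (GT Φ)

/-- [SPL] The splitting of a variety. -/
def S_SPL {p : ℕ} (Φ : FrobSystem W p) (σ : W.K →+* ℂ) : Prop := 1 < p → IsAlgClosed W.K →
  (∀ Z : 𝒱.Obj, RiemannHyp Φ σ Z) → ∀ 𝒮 : Sys (GOb W), IsGeo 𝒮 →
    ∀ (Z : 𝒱.Obj) (q : ℕ), Z.dim = 2 * q → ∃ O R : GOb W, 𝒮.IsSplit (GT Φ) (gone W Z) O R ∧
      gdim O = finrank W.K (genU Φ Z q)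

/-- [GRD] The grading by the eigenvalues of the Frobenius endomorphism. -/
def S_GRD {p : ℕ} (Φ : FrobSystem W p) (σ : W.K →+* ℂ) : Prop := 1 < p → IsAlgClosed W.K →
  (∀ Z : 𝒱.Obj, RiemannHyp Φ σ Z) → ∀ 𝒮 : Sys (GOb W), IsGeo 𝒮 → ∀ X : 𝒱.Obj,
    ∃ (Λ : Type) (_ : Fintype Λ) (U : Λ → GOb W) (g : Λ → (W.Kˣ ⧸ CommGroup.torsion W.Kˣ)),
      𝒮.IsGraded (GT Φ) (𝒮.ten (gone W X) (𝒮.dual (gone W X))) U g

end Pool.Agent.L7h85.RL
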