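import Mathlib

/-!
# Systems of numbers of homomorphisms

An abstract semisimple rigid tensor category, seen through the numbers `h A B = dim Hom (A, B)` and
the dimensions of the objects.
-/

set_option autoImplicit false

namespace Pool.Agent.L7h85.RL

open Finset

/-- A decomposition of the object `A` into simple objects. -/
structure Dec {Ob : Type*} (h : Ob → Ob → ℕ) (dim : Ob → ℕ) (A : Ob) where
  /-- the classes of the simple constituents -/
  C : Type
  [fC : Fintype C]
  [dC : DecidableEq C]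
  /-- the simple constituents -/
  S : C → Ob
  /-- the multiplicities -/
  m : C → ℕ
  m_pos : ∀ c, 0 < m c
  dim_pos : ∀ c, 0 < dim (S c)
  ortho : ∀ c c', h (S c) (S c') = if c = c' then 1 else 0
  par : ∀ B, h A B = ∑ c, m c * h (S c) B
  dim_eq : dim A = ∑ c, m c * dim (S c)
  bessel : ∀ B B', ∑ c, h (S c) B * h (S c) B' ≤ h B B'
  bessel_dim : ∀ B, ∑ c, h (S c) B * dim (S c) ≤ dim B

attribute [instance] Dec.fC Dec.dC

/-- The numbers of homomorphisms, the dimensions, tensor products and duals. -/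
structure Sys (Ob : Type*) where
  /-- the number of homomorphisms -/
  h : Ob → Ob → ℕ
  /-- the dimension -/
  dim : Ob → ℕ
  /-- the tensor product -/
  ten : Ob → Ob → Ob
  /-- the dual -/
  dual : Ob → Ob
  h_symm : ∀ A B, h A B = h B A
  adj : ∀ A B C, h (ten A B) C = h A (ten C (dual B))
  comm : ∀ A B C, h (ten A B) C = h (ten B A) C
  assoc : ∀ A B C D, h (ten (ten A B) C) D = h (ten A (ten B C)) D
  dual_dual : ∀ A B, h (dual (dual A)) B = h A B
  dual_h : ∀ A B, h (dual A) (dual B) = h A B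
  dual_ten : ∀ A B C, h (dual (ten A B)) C = h (ten (dual A) (dual B)) C
  dim_ten : ∀ A B, dim (ten A B) = dim A * dim B
  dim_dual : ∀ A, dim (dual A) = dim A
  tri : ∀ A B C, 0 < dim C → h A B ≤ h (ten A C) (ten B C)
  dec : ∀ A, Nonempty (Dec h dim A)

variable {Ob : Type*}

namespace Sys

variable (𝒮 : Sys Ob)

/-- Equivalent objects. -/
def Eqv (A B : Ob) : Prop := ∀ C, 𝒮.h A C = 𝒮.h B C

/-- The tensor power with `n + 1` factors. -/
def pw (V : Ob) : ℕ → Ob
  | 0 => V
  | n + 1 => 𝒮.ten V (pw V n)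

/-- The object `V ⊗ ⋯ ⊗ V ⊗ V* ⊗ ⋯ ⊗ V*` with `n + 1` factors of both kinds. -/
def wq (V : Ob) (n : ℕ) : Ob := 𝒮.ten (𝒮.pw V n) (𝒮.dual (𝒮.pw V n))

/-- The iterated tensor product `O ⊗ (O ⊗ ⋯ (O ⊗ Y))` with `n` factors `O`. -/
def it (O Y : Ob) : ℕ → Ob
  | 0 => Y
  | n + 1 => 𝒮.ten O (it O Y n)

/-- A class of objects stable under tensor products, duals and simple constituents. -/
structure IsStable (T : Ob → Prop) : Prop where
  ten : ∀ {A B}, T A → T B → T (𝒮.ten A B)
  dual : ∀ {A}, T A → T (𝒮.dual A)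
  sub : ∀ {A S}, T A → 𝒮.h S S = 1 → 𝒮.h S A ≠ 0 → T S

/-- The object `A` is the sum of an object `O` in the class `T` and of an object `R` which has no
simple constituent in `T`. -/
structure IsSplit (T : Ob → Prop) (A O R : Ob) : Prop where
  mem : T O
  split : ∀ C, 𝒮.h A C = 𝒮.h O C + 𝒮.h R C
  dim : 𝒮.dim A = 𝒮.dim O + 𝒮.dim R
  no : ∀ S, 𝒮.h S S = 1 → T S → 𝒮.h S R = 0

/-- The tensor product of a list of objects. -/
def lt {Λ : Type*} (U : Λ → Ob) : Λ → List Λ → Ob
  | a, [] => U a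
  | a, b :: l => 𝒮.ten (U a) (lt U b l)

/-- The object `W` is the sum of the objects `U a` of degrees `g a` in the group `Γ`; products of
degree one are in `T`, the other ones have no simple constituents in `T`. -/
structure IsGraded (T : Ob → Prop) (W : Ob) {Λ : Type} [Fintype Λ] (U : Λ → Ob) {Γ : Type*}
    [CommGroup Γ] (g : Λ → Γ) : Prop where
  sum : ∀ C, 𝒮.h W C = ∑ a, 𝒮.h (U a) C
  mem : ∀ a l, ((a :: l).map g).prod = 1 → T (𝒮.lt U a l)
  no : ∀ a l, ((a :: l).map g).prod ≠ 1 → ∀ S, 𝒮.h S S = 1 → T S → 𝒮.h S (𝒮.lt U a l) = 0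

end Sys

end Pool.Agent.L7h85.RL
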